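import Mathlib

set_option autoImplicit false

/-! # A special case of Abel's binomial identity -/

namespace Pool.Agent.KS6_54.RSD.W151.Abel

open Finset Polynomial

/-- the polynomial `∑ C(n,j) (j+1)^(j-1) (X-j)^(n-j)` -/
noncomputable def f (n : ℕ) : ℚ[X] :=
  ∑ j ∈ range (n + 1), C (((n.choose j * (j + 1) ^ (j - 1) : ℕ) : ℚ)) * (X - C (j : ℚ)) ^ (n - j)

lemma f_deriv (n : ℕ) : derivative (f (n + 1)) = C ((n : ℚ) + 1) * f n := by
  unfold f
  rw [derivative_sum, sum_range_succ, mul_sum]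
  have h1 : derivative (C ((((n + 1).choose (n + 1) * (n + 1 + 1) ^ (n + 1 - 1) : ℕ) : ℚ)) *
      (X - C ((n + 1 : ℕ) : ℚ)) ^ (n + 1 - (n + 1))) = 0 := by
    rw [Nat.sub_self, pow_zero, mul_one, derivative_C]
  rw [h1, add_zero]
  apply sum_congr rfl
  intro j hj
  have hj' : j ≤ n := by simpa [Nat.lt_succ_iff] using hj
  rw [derivative_C_mul, derivative_X_sub_C_pow]
  have h2 : n + 1 - j = (n - j) + 1 := by omega
  rw [h2, Nat.add_sub_cancel]
  have h3 : (((n + 1).choose j * (j + 1) ^ (j - 1) : ℕ) : ℚ) * (((n - j + 1 : ℕ)) : ℚ) =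
      ((n : ℚ) + 1) * ((n.choose j * (j + 1) ^ (j - 1) : ℕ) : ℚ) := by
    have h4 : (n + 1).choose j * (n - j + 1) = (n + 1) * n.choose j := by
      have h5 := Nat.choose_mul_succ_eq n j
      rw [Nat.succ_sub hj'] at h5
      rw [← h5]
      ring
    have h6 : ((n + 1).choose j * (j + 1) ^ (j - 1)) * (n - j + 1) =
        (n + 1) * (n.choose j * (j + 1) ^ (j - 1)) := by
      calc ((n + 1).choose j * (j + 1) ^ (j - 1)) * (n - j + 1)
          = ((n + 1).choose j * (n - j + 1)) * (j + 1) ^ (j - 1) := by ring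
        _ = _ := by rw [h4]; ring
    exact_mod_cast h6
  rw [← mul_assoc, ← mul_assoc, ← C_mul, h3, C_mul]

lemma f_eval (n : ℕ) : (f (n + 1)).eval (-1) = 0 := by
  have h1 : (f (n + 1)).eval (-1) =
      ∑ j ∈ range (n + 1 + 1), ((-1 : ℤ) ^ (n + 1 - j) * ((n + 1).choose j : ℤ)) •
        (fun r : ℚ => r ^ n) (1 + j • (1 : ℚ)) := by
    unfold f
    rw [eval_finsetSum]
    apply sum_congr rfl
    intro j hj
    have hj' : j ≤ n + 1 := by simpa [Nat.lt_succ_iff] using hj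
    simp only [eval_mul, eval_C, eval_pow, eval_sub, eval_X, nsmul_eq_mul, mul_one, zsmul_eq_mul]
    push_cast
    have h2 : (-1 - (j : ℚ)) ^ (n + 1 - j) = (-1) ^ (n + 1 - j) * ((j : ℚ) + 1) ^ (n + 1 - j) := by
      rw [← mul_pow]; congr 1; ring
    rw [h2]
    have h3 : ((j : ℚ) + 1) ^ (j - 1) * ((j : ℚ) + 1) ^ (n + 1 - j) = (1 + (j : ℚ)) ^ n := by
      rcases Nat.eq_zero_or_pos j with rfl | hj0
      · simp
      · rw [← pow_add, add_comm (j : ℚ) 1]
        congr 1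
        omega
    rw [← h3]
    ring
  rw [h1, ← fwdDiff_iter_eq_sum_shift (h := (1 : ℚ)) (fun r : ℚ => r ^ n) (n + 1) 1,
    fwdDiff_iter_pow_eq_zero_of_lt (Nat.lt_succ_self n)]
  rfl

lemma f_eq (n : ℕ) : f n = (X + 1) ^ n := by
  induction n with
  | zero => simp [f]
  | succ n ih =>
    have h1 : derivative (f (n + 1) - (X + 1) ^ (n + 1)) = 0 := by
      rw [derivative_sub, f_deriv, ih]
      simp [derivative_pow]
    have h2 := Polynomial.derivative_eq_zero.1 h1
    obtain ⟨c, hc⟩ := Polynomial.natDegree_eq_zero.1 h2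
    have h3 : (f (n + 1) - (X + 1) ^ (n + 1)).eval (-1) = 0 := by
      rw [eval_sub, f_eval]; simp
    rw [← hc, eval_C] at h3
    rw [h3, C_0] at hc
    exact (sub_eq_zero.1 hc.symm)

/-- Abel's identity. -/
theorem abel (n : ℕ) : ∑ j ∈ range (n + 1), n.choose j * (j + 1) ^ (j - 1) *
    (n + 1 - j) ^ (n - j) = (n + 2) ^ n := by
  have h := congrArg (fun p => Polynomial.eval ((n : ℚ) + 1) p) (f_eq n)
  simp only [f, eval_finsetSum, eval_mul, eval_C, eval_pow, eval_sub, eval_X, eval_add,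
    eval_one] at h
  have h2 : ((∑ j ∈ range (n + 1), n.choose j * (j + 1) ^ (j - 1) *
    (n + 1 - j) ^ (n - j) : ℕ) : ℚ) = (((n + 2) ^ n : ℕ) : ℚ) := by
    push_cast
    rw [show ((n : ℚ) + 2) = (n : ℚ) + 1 + 1 by ring, ← h]
    apply sum_congr rfl
    intro j hj
    have hj' : j ≤ n := by simpa [Nat.lt_succ_iff] using hj
    push_cast
    rw [Nat.cast_sub (by omega : j ≤ n + 1)]
    push_cast
    ring
  exact_mod_cast h2

end Pool.Agent.KS6_54.RSD.W151.Abel
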