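import Pool.Agent.KS6_54.RSD.Graph

/-! Random seed trees: anticoncentration of the statistic of a uniform labelled tree. -/

set_option linter.unusedSectionVars false

namespace Pool.Agent.KS6_54.RSD.Q287.RS

open Finset Pool.Agent.KS6_54.RSD.W151.TreeNum Pool.Agent.KS6_54.RSD.W151.TreeRec

attribute [local instance] Classical.propDecidable

variable {V : Type} [Fintype V]

lemma Mst_pos {G : SimpleGraph V} (hG : G.IsTree) (hV : 2 ≤ Fintype.card V) : 1 ≤ Mst G := by
  obtain ⟨y, x, π, h1, h2, h3, h4, h5, h6, h7⟩ := structure_lemma hG hV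
  rw [← h5]
  exact card_pos.2 ⟨x, self_mem h1 x⟩

lemma Mst_half {G : SimpleGraph V} (hG : G.IsTree) (hV : 2 ≤ Fintype.card V) :
    2 * Mst G ≤ Fintype.card V := by
  obtain ⟨y, x, π, h1, h2, h3, h4, h5, h6, h7⟩ := structure_lemma hG hV
  exact h7

/-- first count -/
lemma count_le (hV : 2 ≤ Fintype.card V) (m : ℕ) :
    ((trees V).filter (fun G => Mst G = m)).card ≤ ∑ y : V, (Mk univ y m m).card := by
  have h1 : (trees V).filter (fun G => Mst G = m) ⊆
      univ.biUnion (fun y => (Mk (univ : Finset V) y m m).image (fun p => Gp p.2)) := by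
    intro G hG
    rw [mem_filter, trees, mem_filter] at hG
    obtain ⟨⟨_, hG⟩, hm⟩ := hG
    obtain ⟨y, x, π, h1, h2, h3, h4, h5, h6, h7⟩ := structure_lemma hG hV
    rw [mem_biUnion]
    refine ⟨y, mem_univ _, ?_⟩
    rw [mem_image]
    refine ⟨(x, π), ?_, h2⟩
    rw [Mk, mem_filter, mem_product, mem_erase, mem_Par]
    refine ⟨⟨⟨h3, mem_univ _⟩, h1⟩, h4, by rw [h5, hm], ?_⟩
    intro z _ hz _ hpz
    rw [← hm]
    exact h6 z hz hpz
  refine (card_le_card h1).trans (card_biUnion_le.trans ?_)
  exact sum_le_sum fun y _ => card_image_le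

lemma count_le' (hV : 2 ≤ Fintype.card V) {m : ℕ} {p : ℝ}
    (hp : ∀ (S : Finset V) (r : V), r ∈ S → S.card = Fintype.card V - m →
      (nb S r m : ℝ) ≤ p * a (Fintype.card V - m)) :
    (((trees V).filter (fun G => Mst G = m)).card : ℝ) ≤
      Fintype.card V * (p * (q (Fintype.card V) m * a (Fintype.card V))) := by
  have h1 : (((trees V).filter (fun G => Mst G = m)).card : ℝ) ≤
      ∑ y : V, ((Mk univ y m m).card : ℝ) := by exact_mod_cast count_le hV m
  refine h1.trans ?_
  have h2 : ∀ y ∈ (univ : Finset V), ((Mk univ y m m).card : ℝ) ≤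
      p * (q (Fintype.card V) m * a (Fintype.card V)) := by
    intro y _
    have := Mk_le (S := (univ : Finset V)) (r := y) (mem_univ y) (M := m) (c := m) (p := p) (by
      intro C hC
      rw [mem_powersetCard] at hC
      have hrC : y ∉ C := fun h => by have := hC.1 h; simp at this
      rw [card_univ]
      apply hp _ _ (by simp [hrC])
      rw [card_sdiff_of_subset (subset_univ _), hC.2, card_univ])
    rwa [card_univ] at this
  refine (sum_le_sum h2).trans (le_of_eq ?_)
  rw [sum_const, card_univ, nsmul_eq_mul]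

/-- the profile -/
noncomputable def hh (i : ℕ) : ℝ := 1 / √(max i 1 : ℕ)

lemma hh_nonneg (i : ℕ) : 0 ≤ hh i := by unfold hh; positivity

lemma hh_anti : Antitone hh := by
  intro i j hij
  unfold hh
  apply one_div_le_one_div_of_le
  · have : 1 ≤ max i 1 := le_max_right _ _
    positivity
  · apply Real.sqrt_le_sqrt
    exact_mod_cast max_le_max_right 1 hij

lemma hh_succ (n : ℕ) : hh (n + 1) = 1 / √((n:ℝ) + 1) := by
  unfold hh
  rw [max_eq_left (by omega)]
  push_cast; rfl

lemma sum_hh (n : ℕ) : ∑ i ∈ range (n + 1), hh i ≤ 1 + 2 * √n := by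
  induction n with
  | zero => simp [hh]
  | succ n ih =>
    rw [sum_range_succ, hh_succ]
    have hn0 : (0:ℝ) ≤ n := Nat.cast_nonneg _
    have h1 : 1 / √((n:ℝ) + 1) ≤ 2 * (√((n:ℝ) + 1) - √n) := by
      set x := √(n:ℝ) with hx
      set y := √((n:ℝ) + 1) with hy
      have hx0 : 0 ≤ x := Real.sqrt_nonneg _
      have hy0 : 0 < y := by positivity
      have hx2 : x ^ 2 = n := Real.sq_sqrt hn0
      have hy2 : y ^ 2 = n + 1 := Real.sq_sqrt (by linarith)
      rw [div_le_iff₀ hy0]
      nlinarith [sq_nonneg (y - x)]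
    push_cast
    linarith

lemma sum_hh' (n : ℕ) : ∑ i ∈ range n, hh i ≤ 1 + 2 * √n := by
  refine le_trans ?_ (sum_hh n)
  rw [sum_range_succ]
  linarith [hh_nonneg n]

/-- sums over arbitrary sets -/
lemma sum_anti (A : Finset ℕ) : ∑ i ∈ A, hh i ≤ ∑ i ∈ range A.card, hh i := by
  induction A using Finset.induction_on_max with
  | empty => simp
  | insert m A hm ih =>
    have hmA : m ∉ A := fun h => lt_irrefl _ (hm m h)
    rw [sum_insert hmA, card_insert_of_notMem hmA, sum_range_succ]
    have h1 : A.card ≤ m := by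
      have : A ⊆ range m := fun x hx => mem_range.2 (hm x hx)
      have := card_le_card this
      rwa [card_range] at this
    have h2 := hh_anti h1
    linarith

lemma sqrt_mul_le {x y : ℝ} (hx : 0 ≤ x) (hxy : x ≤ y) : √x * x ≤ √y * y :=
  mul_le_mul (Real.sqrt_le_sqrt hxy) hxy hx (Real.sqrt_nonneg _)

/-- the bound for a single value -/
lemma single_bound (hV : 2 ≤ Fintype.card V) {m : ℕ} (h1 : 1 ≤ m) (h2 : 2 * m ≤ Fintype.card V) :
    (((trees V).filter (fun G => Mst G = m)).card : ℝ) ≤
      (160 * hh m / Fintype.card V + 260 / (Fintype.card V * √(Fintype.card V)) +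
        255 / √(Fintype.card V) * hh (Fintype.card V / 2 - m)) * a (Fintype.card V) := by
  set k := Fintype.card V with hk
  have hk0 : (0:ℝ) < k := by positivity
  have hm0 : (0:ℝ) < m := by positivity
  have ha := a_pos' (n := k) (by omega)
  have hkr : 2 * (m:ℝ) ≤ k := by exact_mod_cast h2
  set w := √(k:ℝ) with hw
  have hw0 : 0 < w := by positivity
  have hw2 : w ^ 2 = k := Real.sq_sqrt hk0.le
  have hsub : ((k - m : ℕ) : ℝ) = k - m := by rw [Nat.cast_sub (by omega)]
  have hq : q k m ≤ √(2 / (m:ℝ)) * (2 / m) := by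
    refine (q_le h1 (by omega)).trans ?_
    apply sqrt_mul_le (by positivity)
    rw [hsub, div_le_div_iff₀ (mul_pos hm0 (by linarith)) hm0]
    nlinarith
  have hh0 := hh_nonneg m
  have hh1 := hh_nonneg (k / 2 - m)
  have hhm : hh m = 1 / √(m:ℝ) := by unfold hh; rw [max_eq_left h1]
  have hsm0 : 0 < √(m:ℝ) := by positivity
  have hsm2 : √(m:ℝ) ^ 2 = m := Real.sq_sqrt hm0.le
  have h2sq : √(2:ℝ) ≤ 1.4143 := by
    rw [Real.sqrt_le_left (by norm_num)]; norm_num
  have hT1 : 0 ≤ 160 * hh m / k := by positivity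
  have hT2 : 0 ≤ 260 / (k * w) := by positivity
  have hT3 : 0 ≤ 255 / w * hh (k / 2 - m) := by positivity
  have hfin : ∀ p : ℝ, 0 ≤ p → (∀ (S : Finset V) (r : V), r ∈ S → S.card = k - m →
      (nb S r m : ℝ) ≤ p * a (k - m)) → k * (p * (√(2 / (m:ℝ)) * (2 / m))) ≤
        160 * hh m / k + 260 / (k * w) + 255 / w * hh (k / 2 - m) →
      (((trees V).filter (fun G => Mst G = m)).card : ℝ) ≤
      (160 * hh m / k + 260 / (k * w) + 255 / w * hh (k / 2 - m)) * a k := by
    intro p hp hnb hbd
    refine (count_le' hV hnb).trans ?_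
    rw [← hk]
    calc k * (p * (q k m * a k)) = (k * (p * q k m)) * a k := by ring
      _ ≤ (160 * hh m / k + 260 / (k * w) + 255 / w * hh (k / 2 - m)) * a k := by
          apply mul_le_mul_of_nonneg_right _ ha.le
          refine le_trans ?_ hbd
          apply mul_le_mul_of_nonneg_left _ hk0.le
          exact mul_le_mul_of_nonneg_left hq hp
  rcases Nat.lt_or_ge k (4 * m) with c1 | c1
  · have c1r : (k:ℝ) ≤ 4 * m := by exact_mod_cast c1.le
    rcases Nat.lt_or_ge k (3 * m) with c2 | c2
    · have c2r : (k:ℝ) ≤ 3 * m := by exact_mod_cast c2.le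
      have hq3 : √(2 / (m:ℝ)) * (2 / m) ≤ 15 / (k * w) := by
        have e1 : (2:ℝ) / m ≤ 6 / k := by
          rw [div_le_div_iff₀ hm0 hk0]; linarith
        refine (sqrt_mul_le (by positivity) e1).trans ?_
        rw [Real.sqrt_div (by norm_num), ← hw, div_mul_div_comm, div_le_div_iff₀ (by positivity)
          (by positivity)]
        have e2 : √(6:ℝ) ≤ 2.45 := by
          rw [Real.sqrt_le_left (by norm_num)]; norm_num
        have e3 : 0 ≤ (k:ℝ) * w := by positivity
        nlinarith
      rcases Nat.lt_or_ge (2 * m) k with c3 | c3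
      · -- 2 m < k < 3 m
        have hd0 : (0:ℝ) < ((k - 2 * m : ℕ) : ℝ) := by
          have : 0 < k - 2 * m := by omega
          positivity
        apply hfin (1 / ((k - m : ℕ) : ℝ) + 17 / √((k - m - m : ℕ) : ℝ)) (by positivity)
        · intro S r hr hS
          have := nb_large hr (c := m) (by omega) (by omega)
          rwa [hS] at this
        · have e1 : 1 / ((k - m : ℕ) : ℝ) ≤ 2 / k := by
            rw [hsub, div_le_div_iff₀ (by linarith) hk0]
            linarith
          have e2 : 17 / √((k - m - m : ℕ) : ℝ) ≤ 17 * hh (k / 2 - m) := by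
            have : hh (k - 2 * m) ≤ hh (k / 2 - m) := hh_anti (by omega)
            have e3 : hh (k - 2 * m) = 1 / √((k - m - m : ℕ) : ℝ) := by
              unfold hh
              rw [max_eq_left (by omega)]
              congr 3
              omega
            rw [e3] at this
            have e4 : 17 / √((k - m - m : ℕ) : ℝ) = 17 * (1 / √((k - m - m : ℕ) : ℝ)) := by ring
            rw [e4]
            linarith
          have e3 : (1 / ((k - m : ℕ) : ℝ) + 17 / √((k - m - m : ℕ) : ℝ)) *
              (√(2 / (m:ℝ)) * (2 / m)) ≤ (2 / k + 17 * hh (k / 2 - m)) * (15 / (k * w)) := by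
            apply mul_le_mul (by linarith) hq3 (by positivity) (by positivity)
          calc k * ((1 / ((k - m : ℕ) : ℝ) + 17 / √((k - m - m : ℕ) : ℝ)) *
              (√(2 / (m:ℝ)) * (2 / m))) ≤ k * ((2 / k + 17 * hh (k / 2 - m)) * (15 / (k * w))) :=
                mul_le_mul_of_nonneg_left e3 hk0.le
            _ = 30 / (k * w) + 255 / w * hh (k / 2 - m) := by field_simp; ring
            _ ≤ _ := by
                have : 30 / (k * w) ≤ 260 / (k * w) := by
                  apply div_le_div_of_nonneg_right (by norm_num) (by positivity)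
                linarith
      · -- 2 m = k
        apply hfin 1 (by norm_num)
        · intro S r hr hS
          rw [one_mul, ← hS]
          exact_mod_cast nb_le hr m
        · have e1 : hh (k / 2 - m) = 1 := by
            have : k / 2 - m = 0 := by omega
            rw [this]; simp [hh]
          rw [e1]
          calc k * (1 * (√(2 / (m:ℝ)) * (2 / m))) ≤ k * (1 * (15 / (k * w))) := by
                apply mul_le_mul_of_nonneg_left _ hk0.le
                linarith
            _ = 15 / w := by field_simp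
            _ ≤ 255 / w * 1 := by
                rw [mul_one]
                apply div_le_div_of_nonneg_right (by norm_num) hw0.le
            _ ≤ _ := by linarith
    · -- 3 m ≤ k < 4 m
      have hq4 : √(2 / (m:ℝ)) * (2 / m) ≤ 23 / (k * w) := by
        have e1 : (2:ℝ) / m ≤ 8 / k := by
          rw [div_le_div_iff₀ hm0 hk0]; linarith
        refine (sqrt_mul_le (by positivity) e1).trans ?_
        rw [Real.sqrt_div (by norm_num), ← hw, div_mul_div_comm, div_le_div_iff₀ (by positivity)
          (by positivity)]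
        have e2 : √(8:ℝ) ≤ 2.83 := by
          rw [Real.sqrt_le_left (by norm_num)]; norm_num
        have e3 : 0 ≤ (k:ℝ) * w := by positivity
        nlinarith
      apply hfin (5 / ((k - m : ℕ) : ℝ)) (by positivity)
      · intro S r hr hS
        have := nb_half hr (c := m) (by omega)
        rwa [hS] at this
      · have e1 : 5 / ((k - m : ℕ) : ℝ) ≤ 10 / k := by
          rw [hsub, div_le_div_iff₀ (by linarith) hk0]
          linarith
        calc k * (5 / ((k - m : ℕ) : ℝ) * (√(2 / (m:ℝ)) * (2 / m))) ≤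
            k * (10 / k * (23 / (k * w))) := by
              apply mul_le_mul_of_nonneg_left _ hk0.le
              exact mul_le_mul e1 hq4 (by positivity) (by positivity)
          _ = 230 / (k * w) := by field_simp; ring
          _ ≤ 260 / (k * w) := div_le_div_of_nonneg_right (by norm_num) (by positivity)
          _ ≤ _ := by linarith
  · -- 4 m ≤ k
    have c1r : 4 * (m:ℝ) ≤ k := by exact_mod_cast c1
    apply hfin (30 * m / ((k - m : ℕ) : ℝ) ^ 2) (by positivity)
    · intro S r hr hS
      have := nb_small hr (c := m) (by omega) (by omega)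
      rwa [hS] at this
    · have e1 : 30 * (m:ℝ) / ((k - m : ℕ) : ℝ) ^ 2 ≤ 30 * m / (3 / 4 * k) ^ 2 := by
        apply div_le_div_of_nonneg_left (by positivity) (by positivity)
        apply pow_le_pow_left₀ (by positivity)
        rw [hsub]; linarith
      have e2 : √(2 / (m:ℝ)) = √2 / √m := Real.sqrt_div (by norm_num) _
      calc k * (30 * m / ((k - m : ℕ) : ℝ) ^ 2 * (√(2 / (m:ℝ)) * (2 / m))) ≤
          k * (30 * m / (3 / 4 * k) ^ 2 * (√(2 / (m:ℝ)) * (2 / m))) := by
            apply mul_le_mul_of_nonneg_left _ hk0.le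
            apply mul_le_mul_of_nonneg_right e1 (by positivity)
        _ = (60 * 16 / 9 * √2) * (1 / √m) / k := by
            rw [e2]; field_simp; norm_num
        _ ≤ 160 * hh m / k := by
            apply div_le_div_of_nonneg_right _ hk0.le
            rw [hhm]
            apply mul_le_mul_of_nonneg_right _ (by positivity)
            linarith
        _ ≤ _ := by linarith

/-- anticoncentration -/
theorem anti (hV : 2 ≤ Fintype.card V) (A : Finset ℕ) :
    (((trees V).filter (fun G => Mst G ∈ A)).card : ℝ) ≤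
      (1000 + 510 * √(A.card : ℝ)) / √(Fintype.card V) * a (Fintype.card V) := by
  set k := Fintype.card V with hk
  have hk0 : (0:ℝ) < k := by positivity
  have hk1 : (1:ℝ) ≤ k := by
    have : 1 ≤ k := by omega
    exact_mod_cast this
  have ha := a_pos' (n := k) (by omega)
  set w := √(k:ℝ) with hw
  have hw0 : 0 < w := by positivity
  have hw2 : w ^ 2 = k := Real.sq_sqrt hk0.le
  have hw1 : 1 ≤ w := by
    rw [hw, Real.one_le_sqrt]; exact hk1
  set B := A.filter (fun m => 1 ≤ m ∧ 2 * m ≤ k) with hB
  have h1 : (trees V).filter (fun G => Mst G ∈ A) ⊆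
      B.biUnion (fun m => (trees V).filter (fun G => Mst G = m)) := by
    intro G hG
    rw [mem_filter] at hG
    rw [mem_biUnion]
    have hT : G.IsTree := (mem_filter.1 hG.1).2
    refine ⟨Mst G, ?_, mem_filter.2 ⟨hG.1, rfl⟩⟩
    rw [hB, mem_filter]
    exact ⟨hG.2, Mst_pos hT hV, Mst_half hT hV⟩
  have h2 : (((trees V).filter (fun G => Mst G ∈ A)).card : ℝ) ≤
      ∑ m ∈ B, (((trees V).filter (fun G => Mst G = m)).card : ℝ) := by
    have := (card_le_card h1).trans card_biUnion_le
    exact_mod_cast this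
  refine h2.trans ?_
  have h3 : ∑ m ∈ B, (((trees V).filter (fun G => Mst G = m)).card : ℝ) ≤
      ∑ m ∈ B, (160 * hh m / k + 260 / (k * w) + 255 / w * hh (k / 2 - m)) * a k := by
    apply sum_le_sum
    intro m hm
    rw [hB, mem_filter] at hm
    exact single_bound hV hm.2.1 hm.2.2
  refine h3.trans ?_
  rw [← sum_mul]
  apply mul_le_mul_of_nonneg_right _ ha.le
  rw [sum_add_distrib, sum_add_distrib]
  have hBk : B.card ≤ k := by
    have : B ⊆ Ico 1 (k + 1) := by
      intro m hm
      rw [hB, mem_filter] at hm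
      rw [mem_Ico]; omega
    have := card_le_card this
    rwa [Nat.card_Ico, Nat.add_sub_cancel] at this
  have hBA : B.card ≤ A.card := card_le_card (filter_subset _ _)
  have s1 : ∑ m ∈ B, 160 * hh m / k ≤ 480 / w := by
    rw [← sum_div, ← mul_sum]
    have e1 : ∑ m ∈ B, hh m ≤ 3 * w := by
      refine (sum_anti B).trans ((sum_hh' _).trans ?_)
      have : √(B.card : ℝ) ≤ w := Real.sqrt_le_sqrt (by exact_mod_cast hBk)
      linarith
    rw [div_le_div_iff₀ hk0 hw0, ← hw2]
    nlinarith
  have s2 : ∑ _m ∈ B, 260 / ((k:ℝ) * w) ≤ 260 / w := by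
    rw [sum_const, nsmul_eq_mul]
    have e1 : (B.card : ℝ) ≤ k := by exact_mod_cast hBk
    calc (B.card : ℝ) * (260 / (k * w)) ≤ k * (260 / (k * w)) :=
          mul_le_mul_of_nonneg_right e1 (by positivity)
      _ = 260 / w := by field_simp
  have s3 : ∑ m ∈ B, 255 / w * hh (k / 2 - m) ≤ 255 / w * (1 + 2 * √(A.card : ℝ)) := by
    rw [← mul_sum]
    apply mul_le_mul_of_nonneg_left _ (by positivity)
    have e1 : ∑ m ∈ B, hh (k / 2 - m) = ∑ i ∈ B.image (fun m => k / 2 - m), hh i := by
      rw [sum_image]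
      intro m hm m' hm' h
      rw [mem_coe, hB, mem_filter] at hm hm'
      simp only at h
      omega
    rw [e1]
    refine (sum_anti _).trans ((sum_hh' _).trans ?_)
    have e2 : (B.image (fun m => k / 2 - m)).card ≤ A.card := card_image_le.trans hBA
    have e3 : √((B.image (fun m => k / 2 - m)).card : ℝ) ≤ √(A.card : ℝ) :=
      Real.sqrt_le_sqrt (by exact_mod_cast e2)
    linarith
  have e : (1000 + 510 * √(A.card : ℝ)) / w = 480 / w + 260 / w + 255 / w *
      (1 + 2 * √(A.card : ℝ)) + 5 / w := by ring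
  rw [e]
  have : 0 ≤ 5 / w := by positivity
  linarith

end Pool.Agent.KS6_54.RSD.Q287.RS
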