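import Pool.Agent.KS6_54.RSD.Final

/-! Random seed trees: the probability that the statistics of two independent uniformly random
trees are close, and the resulting rate. -/

set_option linter.unusedSectionVars false

namespace Pool.Agent.KS6_54.RSD.Coll

open Finset Filter Topology Pool.Agent.KS6_54.RSD.Q287.RS
open Pool.Agent.KS6_54.RSD.W151.TreeNum Pool.Agent.KS6_54.RSD.W151.TreeRec

attribute [local instance] Classical.propDecidable

lemma hh_sq (i : ℕ) : hh i ^ 2 = 1 / ((max i 1 : ℕ) : ℝ) := by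
  unfold hh
  rw [div_pow, one_pow, Real.sq_sqrt (Nat.cast_nonneg _)]

lemma sum_hh_sq (n : ℕ) : ∑ i ∈ range (n + 1), hh i ^ 2 ≤ 2 + Real.log n := by
  rw [sum_range_succ']
  have h0 : hh 0 ^ 2 = 1 := by rw [hh_sq]; simp
  have h1 : ∑ i ∈ range n, hh (i + 1) ^ 2 = (harmonic n : ℝ) := by
    unfold harmonic
    push_cast
    refine sum_congr rfl fun i _ => ?_
    rw [hh_sq, max_eq_left (by omega)]
    push_cast
    rw [one_div]
  have h2 := harmonic_le_one_add_log n
  rw [h0, h1]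
  linarith

section
variable {V : Type} [Fintype V]

/-- the number of trees with a given value of the statistic -/
noncomputable def Nc (V : Type) [Fintype V] (m : ℕ) : ℝ :=
  (((trees V).filter (fun G => Mst G = m)).card : ℝ)

lemma Nc_nonneg (m : ℕ) : 0 ≤ Nc V m := Nat.cast_nonneg _

lemma Nc_zero (hV : 2 ≤ Fintype.card V) {m : ℕ} (h : ¬ (1 ≤ m ∧ 2 * m ≤ Fintype.card V)) :
    Nc V m = 0 := by
  unfold Nc
  rw [Nat.cast_eq_zero, card_eq_zero, filter_eq_empty_iff]
  intro G hG hm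
  have hT : G.IsTree := (mem_filter.1 hG).2
  apply h
  have h1 := Mst_pos hT hV
  have h2 := Mst_half hT hV
  rw [hm] at h1 h2
  exact ⟨h1, h2⟩

/-- the collision bound -/
lemma coll (hV : 2 ≤ Fintype.card V) :
    ∑ m ∈ range (Fintype.card V + 1), Nc V m ^ 2 ≤
      474675 * (2 + Real.log (Fintype.card V)) / Fintype.card V * (a (Fintype.card V) : ℝ) ^ 2 := by
  set k := Fintype.card V with hk
  have hk2 : (2:ℝ) ≤ k := by exact_mod_cast hV
  have hk0 : (0:ℝ) < k := by linarith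
  have ha := a_pos' (n := k) (by omega)
  set w := √(k:ℝ) with hw
  have hw0 : 0 < w := by positivity
  have hw2 : w ^ 2 = k := Real.sq_sqrt hk0.le
  have hlog : 0 ≤ Real.log k := Real.log_nonneg (by linarith)
  set B := (range (k + 1)).filter (fun m => 1 ≤ m ∧ 2 * m ≤ k) with hB
  have h1 : ∑ m ∈ range (k + 1), Nc V m ^ 2 = ∑ m ∈ B, Nc V m ^ 2 := by
    rw [hB, sum_filter]
    refine sum_congr rfl fun m _ => ?_
    by_cases h : 1 ≤ m ∧ 2 * m ≤ k
    · rw [if_pos h]
    · rw [if_neg h, Nc_zero hV h]; norm_num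
  rw [h1]
  have h2 : ∀ m ∈ B, Nc V m ^ 2 ≤ (3 * (25600 / (k:ℝ) ^ 2 * hh m ^ 2 + 67600 / (k:ℝ) ^ 3 +
      65025 / k * hh (k / 2 - m) ^ 2)) * (a k : ℝ) ^ 2 := by
    intro m hm
    rw [hB, mem_filter] at hm
    have e1 : Nc V m ≤ _ := single_bound hV hm.2.1 hm.2.2
    rw [← hk, ← hw] at e1
    have e2 := pow_le_pow_left₀ (Nc_nonneg m) e1 2
    refine e2.trans ?_
    rw [mul_pow]
    apply mul_le_mul_of_nonneg_right _ (by positivity)
    set x := 160 * hh m / (k:ℝ) with hx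
    set y := 260 / ((k:ℝ) * w) with hy
    set z := 255 / w * hh (k / 2 - m) with hz
    have e3 : (x + y + z) ^ 2 ≤ 3 * (x ^ 2 + y ^ 2 + z ^ 2) := by
      nlinarith [sq_nonneg (x - y), sq_nonneg (y - z), sq_nonneg (x - z)]
    refine e3.trans (le_of_eq ?_)
    have ex : x ^ 2 = 25600 / (k:ℝ) ^ 2 * hh m ^ 2 := by rw [hx]; ring
    have ey : y ^ 2 = 67600 / (k:ℝ) ^ 3 := by
      rw [hy, div_pow, mul_pow, hw2]
      ring
    have ez : z ^ 2 = 65025 / k * hh (k / 2 - m) ^ 2 := by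
      rw [hz, mul_pow, div_pow, hw2]
      ring
    rw [ex, ey, ez]
  refine (sum_le_sum h2).trans ?_
  rw [← sum_mul]
  apply mul_le_mul_of_nonneg_right _ (by positivity)
  rw [← mul_sum, sum_add_distrib, sum_add_distrib, ← mul_sum, ← mul_sum, sum_const, nsmul_eq_mul]
  have hBk : (B.card : ℝ) ≤ k := by
    have : B ⊆ Ico 1 (k + 1) := by
      intro m hm
      rw [hB, mem_filter, mem_range] at hm
      rw [mem_Ico]; omega
    have := card_le_card this
    rw [Nat.card_Ico, Nat.add_sub_cancel] at this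
    exact_mod_cast this
  have hS := sum_hh_sq k
  have s1 : ∑ m ∈ B, hh m ^ 2 ≤ 2 + Real.log k :=
    (sum_le_sum_of_subset_of_nonneg (filter_subset _ _) fun i _ _ => sq_nonneg _).trans hS
  have s3 : ∑ m ∈ B, hh (k / 2 - m) ^ 2 ≤ 2 + Real.log k := by
    have e1 : ∑ m ∈ B, hh (k / 2 - m) ^ 2 = ∑ i ∈ B.image (fun m => k / 2 - m), hh i ^ 2 := by
      rw [sum_image]
      intro m hm m' hm' h
      rw [mem_coe, hB, mem_filter] at hm hm'
      simp only at h
      omega
    rw [e1]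
    refine (sum_le_sum_of_subset_of_nonneg ?_ fun i _ _ => sq_nonneg _).trans hS
    intro i hi
    rw [mem_image] at hi
    obtain ⟨m, _, rfl⟩ := hi
    rw [mem_range]
    omega
  have q1 : 25600 / (k:ℝ) ^ 2 * ∑ m ∈ B, hh m ^ 2 ≤ 25600 / k * (2 + Real.log k) := by
    apply mul_le_mul _ s1 (sum_nonneg fun i _ => sq_nonneg _) (by positivity)
    apply div_le_div_of_nonneg_left (by norm_num) hk0
    nlinarith
  have q2 : (B.card : ℝ) * (67600 / (k:ℝ) ^ 3) ≤ 67600 / k * (2 + Real.log k) := by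
    calc (B.card : ℝ) * (67600 / (k:ℝ) ^ 3) ≤ k * (67600 / (k:ℝ) ^ 3) :=
          mul_le_mul_of_nonneg_right hBk (by positivity)
      _ = 67600 / k * (1 / k) := by field_simp
      _ ≤ 67600 / k * (2 + Real.log k) := by
          apply mul_le_mul_of_nonneg_left _ (by positivity)
          have : 1 / (k:ℝ) ≤ 1 := by rw [div_le_one hk0]; linarith
          linarith
  have q3 : 65025 / (k:ℝ) * ∑ m ∈ B, hh (k / 2 - m) ^ 2 ≤ 65025 / k * (2 + Real.log k) :=
    mul_le_mul_of_nonneg_left s3 (by positivity)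
  have e : 474675 * (2 + Real.log k) / k = 3 * (25600 / k * (2 + Real.log k) +
      67600 / k * (2 + Real.log k) + 65025 / k * (2 + Real.log k)) := by ring
  rw [e]
  linarith

lemma sum_Mst (hV : 2 ≤ Fintype.card V) (F : ℕ → ℝ) :
    ∑ T ∈ trees V, F (Mst T) = ∑ m ∈ range (Fintype.card V + 1), Nc V m * F m := by
  rw [← sum_fiberwise_of_maps_to (s := trees V) (t := range (Fintype.card V + 1))
    (g := fun T => Mst T) ?_ (fun T => F (Mst T))]
  · refine sum_congr rfl fun m _ => ?_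
    rw [sum_congr rfl (g := fun _ => F m)
      (fun T hT => by rw [(mem_filter.1 hT).2]), sum_const, nsmul_eq_mul]
    rfl
  · intro T hT
    have := Mst_half (mem_filter.1 hT).2 hV
    rw [mem_range]
    omega

/-- the number of pairs of trees with close statistics -/
lemma near_pairs (hV : 2 ≤ Fintype.card V) {D : ℝ} (hD : 0 ≤ D) :
    ∑ S ∈ trees V, ∑ T ∈ trees V, (if |((Mst T : ℕ) : ℝ) - (Mst S : ℕ)| ≤ D then (1:ℝ) else 0) ≤
      (2 * D + 1) * (474675 * (2 + Real.log (Fintype.card V)) / Fintype.card V *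
        (a (Fintype.card V) : ℝ) ^ 2) := by
  set k := Fintype.card V with hk
  set I : ℕ → ℕ → ℝ := fun m m' => if |(m' : ℝ) - m| ≤ D then 1 else 0 with hI
  have hI0 : ∀ m m', 0 ≤ I m m' := by
    intro m m'; rw [hI]; simp only; split_ifs <;> norm_num
  have hIs : ∀ m m', I m m' = I m' m := by
    intro m m'; rw [hI]; simp only; rw [abs_sub_comm]
  have e1 : ∑ S ∈ trees V, ∑ T ∈ trees V,
      (if |((Mst T : ℕ) : ℝ) - (Mst S : ℕ)| ≤ D then (1:ℝ) else 0) =
      ∑ m ∈ range (k + 1), ∑ m' ∈ range (k + 1), Nc V m * (Nc V m' * I m m') := by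
    have f1 : ∀ S : SimpleGraph V, ∑ T ∈ trees V,
        (if |((Mst T : ℕ) : ℝ) - (Mst S : ℕ)| ≤ D then (1:ℝ) else 0) =
        ∑ m' ∈ range (k + 1), Nc V m' * I (Mst S) m' := fun S => sum_Mst hV (fun m' => I (Mst S) m')
    rw [sum_congr rfl fun S _ => f1 S,
      sum_Mst hV (fun m => ∑ m' ∈ range (k + 1), Nc V m' * I m m')]
    refine sum_congr rfl fun m _ => ?_
    rw [mul_sum]
  rw [e1]
  have e2 : ∑ m ∈ range (k + 1), ∑ m' ∈ range (k + 1), Nc V m * (Nc V m' * I m m') ≤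
      ∑ m ∈ range (k + 1), ∑ m' ∈ range (k + 1), (Nc V m ^ 2 / 2 * I m m' +
        Nc V m' ^ 2 / 2 * I m m') := by
    refine sum_le_sum fun m _ => sum_le_sum fun m' _ => ?_
    have := hI0 m m'
    have h3 : Nc V m * Nc V m' ≤ Nc V m ^ 2 / 2 + Nc V m' ^ 2 / 2 := by
      nlinarith [sq_nonneg (Nc V m - Nc V m')]
    nlinarith
  have e3 : ∑ m ∈ range (k + 1), ∑ m' ∈ range (k + 1), (Nc V m ^ 2 / 2 * I m m' +
        Nc V m' ^ 2 / 2 * I m m') = ∑ m ∈ range (k + 1), Nc V m ^ 2 * ∑ m' ∈ range (k + 1), I m m' := by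
    simp only [sum_add_distrib]
    have f1 : ∑ m ∈ range (k + 1), ∑ m' ∈ range (k + 1), Nc V m' ^ 2 / 2 * I m m' =
        ∑ m ∈ range (k + 1), ∑ m' ∈ range (k + 1), Nc V m ^ 2 / 2 * I m m' := by
      rw [sum_comm]
      refine sum_congr rfl fun m _ => sum_congr rfl fun m' _ => ?_
      rw [hIs]
    rw [f1, ← sum_add_distrib]
    refine sum_congr rfl fun m _ => ?_
    rw [← mul_sum]
    ring
  rw [e3] at e2
  refine e2.trans ?_
  have e4 : ∀ m, ∑ m' ∈ range (k + 1), I m m' ≤ 2 * D + 1 := by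
    intro m
    have f1 : ∑ m' ∈ range (k + 1), I m m' =
        (((range (k + 1)).filter (fun m' : ℕ => |(m' : ℝ) - m| ≤ D)).card : ℝ) := by
      rw [hI]
      simp only
      rw [← sum_filter]
      simp
    rw [f1]
    exact card_near m hD fun m' hm' => (mem_filter.1 hm').2
  calc ∑ m ∈ range (k + 1), Nc V m ^ 2 * ∑ m' ∈ range (k + 1), I m m'
      ≤ ∑ m ∈ range (k + 1), Nc V m ^ 2 * (2 * D + 1) :=
        sum_le_sum fun m _ => mul_le_mul_of_nonneg_left (e4 m) (sq_nonneg _)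
    _ = (2 * D + 1) * ∑ m ∈ range (k + 1), Nc V m ^ 2 := by rw [← sum_mul]; ring
    _ ≤ _ := mul_le_mul_of_nonneg_left (coll hV) (by linarith)

end

/-- lower bound for the mean -/
theorem mean_lower2 {k : ℕ} (hk : 2 ≤ k) {ε : ℝ} (hε : 0 < ε) (hε1 : 4 / (k * ε ^ 2) ≤ 1) :
    1 - (4 / (k * ε ^ 2) + (4 * ε * k + 9) * (474675 * (2 + Real.log k) / k)) ≤ meanDist k := by
  have hkr : (2:ℝ) ≤ k := by exact_mod_cast hk
  have hk0 : (0:ℝ) < k := by linarith
  have hk1 : (0:ℝ) < (k:ℝ) - 1 := by linarith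
  have hlog : 0 ≤ Real.log k := Real.log_nonneg (by linarith)
  have : Nonempty (Fin k) := ⟨⟨0, by omega⟩⟩
  set t : ℝ := ((trees (Fin k)).card : ℝ) with ht
  have hta : t = a k := by rw [ht, card_trees, Fintype.card_fin]
  have ht0 : 0 < t := by rw [hta]; exact a_pos' (by omega)
  set δ := 4 / (k * ε ^ 2) with hδ
  have hδ0 : 0 ≤ δ := by positivity
  set ε' := ε + 1 / ((k:ℝ) - 1) with hε'
  have hε'0 : 0 < ε' := by positivity
  set Q := 474675 * (2 + Real.log k) / (k:ℝ) with hQ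
  have hQ0 : 0 ≤ Q := by positivity
  have hk2' : (k:ℝ) / (k - 1) ≤ 2 := by
    rw [div_le_iff₀ hk1]; linarith
  have hDk : 2 * (2 * ε' * k) + 1 ≤ 4 * ε * k + 9 := by
    have : 2 * (2 * ε' * k) + 1 = 4 * ε * k + 4 * (k / (k - 1)) + 1 := by
      rw [hε']
      have : (k:ℝ) - 1 ≠ 0 := by linarith
      field_simp
      ring
    linarith
  set I : SimpleGraph (Fin k) → SimpleGraph (Fin k) → ℝ := fun S T =>
    if |((Mst T : ℕ) : ℝ) - (Mst S : ℕ)| ≤ 2 * ε' * k then (1:ℝ) else 0 with hI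
  have hnear := near_pairs (V := Fin k) (by rw [Fintype.card_fin]; exact hk)
    (D := 2 * ε' * k) (by positivity)
  rw [Fintype.card_fin, ← hQ, ← hta] at hnear
  have hnear' : ∑ S ∈ trees (Fin k), ∑ T ∈ trees (Fin k), I S T ≤ (4 * ε * k + 9) * Q * t ^ 2 := by
    refine hnear.trans ?_
    calc (2 * (2 * ε' * k) + 1) * (Q * t ^ 2) ≤ (4 * ε * k + 9) * (Q * t ^ 2) :=
          mul_le_mul_of_nonneg_right hDk (by positivity)
      _ = (4 * ε * k + 9) * Q * t ^ 2 := by ring
  have h1 : ∀ S ∈ trees (Fin k), ∀ T ∈ trees (Fin k), (1 - δ) * (1 - I S T) ≤ seedDist S T := by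
    intro S hS T hT
    have hS' : S.IsTree := (mem_filter.1 hS).2
    have hT' : T.IsTree := (mem_filter.1 hT).2
    by_cases hc : |((Mst T : ℕ) : ℝ) - (Mst S : ℕ)| ≤ 2 * ε' * k
    · have : I S T = 1 := by rw [hI]; exact if_pos hc
      rw [this, sub_self, mul_zero]
      exact seedDist_nonneg S T
    · have : I S T = 0 := by rw [hI]; exact if_neg hc
      rw [this, sub_zero, mul_one]
      apply seed_lower hk hS' hT' hε
      rw [← sub_div, abs_div, abs_of_pos hk0, lt_div_iff₀ hk0, abs_sub_comm]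
      push Not at hc
      rw [← hε']
      exact hc
  have h2 : (1 - δ) * (t ^ 2 - ∑ S ∈ trees (Fin k), ∑ T ∈ trees (Fin k), I S T) ≤
      ∑ S ∈ trees (Fin k), ∑ T ∈ trees (Fin k), seedDist S T := by
    refine le_trans (le_of_eq ?_) (sum_le_sum fun S hS => sum_le_sum fun T hT => h1 S hS T hT)
    simp only [← mul_sum, sum_sub_distrib, sum_const, nsmul_eq_mul, mul_one]
    rw [← ht]
    ring
  unfold meanDist
  rw [← ht, le_div_iff₀ (by positivity)]
  refine le_trans ?_ h2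
  have h3 : (1 - δ) * (t ^ 2 - (4 * ε * k + 9) * Q * t ^ 2) ≤
      (1 - δ) * (t ^ 2 - ∑ S ∈ trees (Fin k), ∑ T ∈ trees (Fin k), I S T) :=
    mul_le_mul_of_nonneg_left (by linarith) (by linarith)
  refine le_trans ?_ h3
  have h4 : (1 - δ) * (t ^ 2 - (4 * ε * k + 9) * Q * t ^ 2) =
      (1 - (δ + (4 * ε * k + 9) * Q) + δ * ((4 * ε * k + 9) * Q)) * t ^ 2 := by ring
  rw [h4]
  apply mul_le_mul_of_nonneg_right _ (by positivity)
  have : 0 ≤ δ * ((4 * ε * k + 9) * Q) := by positivity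
  linarith

/-- explicit rate -/
theorem mean_rate2 {k : ℕ} (hk : 2 ≤ k) :
    1 - 3 * 10 ^ 7 * Real.log k / (k : ℝ) ^ (1 / 3 : ℝ) ≤ meanDist k := by
  have hkr : (2:ℝ) ≤ k := by exact_mod_cast hk
  have hk0 : (0:ℝ) < k := by linarith
  set c := (k:ℝ) ^ (1 / 3 : ℝ) with hc
  have hc0 : 0 < c := Real.rpow_pos_of_pos hk0 _
  have hc3 : c ^ 3 = k := by
    rw [hc, ← Real.rpow_natCast, ← Real.rpow_mul hk0.le]
    norm_num
  have hc1 : 1 ≤ c := Real.one_le_rpow (by linarith) (by norm_num)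
  have hlog2 : 0.6931471803 < Real.log 2 := Real.log_two_gt_d9
  have hlogk : Real.log 2 ≤ Real.log k := Real.log_le_log (by norm_num) hkr
  by_cases hbig : 3 * 10 ^ 7 * Real.log k / c ≤ 1
  · have hcb : 3 * 10 ^ 7 * Real.log k ≤ c := by rwa [div_le_one hc0] at hbig
    have hc4 : 4 ≤ c := by nlinarith
    have e0 : (k:ℝ) * (1 / c) ^ 2 = c := by
      rw [← hc3]; field_simp
    have h1 := mean_lower2 hk (ε := 1 / c) (by positivity) (by
      rw [e0, div_le_one hc0]; exact hc4)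
    rw [e0] at h1
    refine le_trans ?_ h1
    apply sub_le_sub_left
    have e1 : 4 * (1 / c) * (k:ℝ) + 9 ≤ 13 * (k / c) := by
      have : 1 ≤ (k:ℝ) / c := by
        rw [le_div_iff₀ hc0, ← hc3]
        have h5 : 0 ≤ c * ((c - 1) * (c + 1)) :=
          mul_nonneg hc0.le (mul_nonneg (by linarith) (by linarith))
        have h6 : c * ((c - 1) * (c + 1)) = c ^ 3 - c := by ring
        linarith
      have e2 : 4 * (1 / c) * (k:ℝ) = 4 * (k / c) := by ring
      rw [e2]; linarith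
    have e3 : (4 * (1 / c) * (k:ℝ) + 9) * (474675 * (2 + Real.log k) / k) ≤
        13 * (k / c) * (474675 * (2 + Real.log k) / k) :=
      mul_le_mul_of_nonneg_right e1 (by positivity)
    have e4 : 13 * ((k:ℝ) / c) * (474675 * (2 + Real.log k) / k) =
        6170775 * (2 + Real.log k) / c := by
      field_simp; ring
    rw [e4] at e3
    have e5 : 4 / c + 6170775 * (2 + Real.log k) / c ≤ 3 * 10 ^ 7 * Real.log k / c := by
      rw [← add_div]
      apply div_le_div_of_nonneg_right _ hc0.le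
      nlinarith
    linarith
  · have h1 : 0 ≤ meanDist k := by
      unfold meanDist
      apply div_nonneg _ (by positivity)
      exact sum_nonneg fun S _ => sum_nonneg fun T _ => seedDist_nonneg S T
    linarith

end Pool.Agent.KS6_54.RSD.Coll
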