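import Mathlib

set_option autoImplicit false
set_option linter.unusedSectionVars false

/-! # Parent functions (rooted spanning trees) and their decomposition -/

namespace Pool.Agent.KS6_54.RSD.W151.TreeRec

open Finset

attribute [local instance] Classical.propDecidable

variable {V : Type} [Fintype V]

/-- `π` is the parent function of a spanning tree of `G[S]` rooted at `r` -/
def IsPar (G : SimpleGraph V) (S : Finset V) (r : V) (π : V → V) : Prop :=
  (∀ v, (v ∉ S ∨ v = r) → π v = v) ∧ (∀ v ∈ S, v ≠ r → π v ∈ S ∧ G.Adj v (π v)) ∧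
    ∀ v ∈ S, ∃ k, π^[k] v = r

/-- the set of parent functions -/
noncomputable def Par (G : SimpleGraph V) (S : Finset V) (r : V) : Finset (V → V) :=
  univ.filter (fun π => IsPar G S r π)

lemma mem_Par {G : SimpleGraph V} {S : Finset V} {r : V} {π : V → V} :
    π ∈ Par G S r ↔ IsPar G S r π := by simp [Par]

lemma iter_fix {π : V → V} {r : V} (h : π r = r) (k : ℕ) : π^[k] r = r :=
  Function.iterate_fixed h k

lemma IsPar.root {G : SimpleGraph V} {S : Finset V} {r : V} {π : V → V} (h : IsPar G S r π) :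
    π r = r := h.1 r (Or.inr rfl)

lemma IsPar.mem {G : SimpleGraph V} {S : Finset V} {r : V} {π : V → V} (h : IsPar G S r π)
    {v : V} (hv : v ∈ S) : π v ∈ S := by
  by_cases hr : v = r
  · rw [hr, h.root, ← hr]; exact hv
  · exact (h.2.1 v hv hr).1

lemma IsPar.iter_mem {G : SimpleGraph V} {S : Finset V} {r : V} {π : V → V} (h : IsPar G S r π)
    {v : V} (hv : v ∈ S) (k : ℕ) : π^[k] v ∈ S := by
  induction k with
  | zero => exact hv
  | succ k ih => rw [Function.iterate_succ_apply']; exact h.mem ih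

/-- gluing -/
noncomputable def glue (r : V) (C : Finset V) (u : V) (π₁ π₂ : V → V) : V → V :=
  fun v => if v = u then r else if v ∈ C then π₁ v else π₂ v

lemma glue_u (r : V) (C : Finset V) (u : V) (π₁ π₂ : V → V) : glue r C u π₁ π₂ u = r := by
  simp [glue]

lemma glue_C {r : V} {C : Finset V} {u : V} {π₁ π₂ : V → V} {v : V} (hv : v ∈ C) (hu : v ≠ u) :
    glue r C u π₁ π₂ v = π₁ v := by
  simp [glue, hv, hu]

lemma glue_D {r : V} {C : Finset V} {u : V} {π₁ π₂ : V → V} {v : V} (hv : v ∉ C) (hu : u ∈ C) :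
    glue r C u π₁ π₂ v = π₂ v := by
  have : v ≠ u := by rintro rfl; exact hv hu
  simp [glue, hv, this]

section
variable {G : SimpleGraph V} {S C : Finset V} {r u : V} {π₁ π₂ : V → V}

lemma glue_iter_D (hu : u ∈ C) (h2 : IsPar G (S \ C) r π₂) {v : V}
    (hv : v ∈ S \ C) (k : ℕ) : (glue r C u π₁ π₂)^[k] v = π₂^[k] v := by
  induction k with
  | zero => rfl
  | succ k ih =>
    rw [Function.iterate_succ_apply', Function.iterate_succ_apply', ih]
    have := h2.iter_mem hv k
    exact glue_D (by simp at this; exact this.2) hu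

lemma glue_reach_u (h1 : IsPar G C u π₁) : ∀ (k : ℕ) (v : V), v ∈ C → π₁^[k] v = u →
    ∃ j, (glue r C u π₁ π₂)^[j] v = u := by
  intro k
  induction k with
  | zero => intro v _ h; exact ⟨0, h⟩
  | succ k ih =>
    intro v hv h
    by_cases hvu : v = u
    · exact ⟨0, hvu⟩
    · rw [Function.iterate_succ_apply] at h
      obtain ⟨j, hj⟩ := ih (π₁ v) (h1.mem hv) h
      refine ⟨j + 1, ?_⟩
      rw [Function.iterate_succ_apply, glue_C hv hvu, hj]

lemma glue_isPar (hr : r ∈ S) (hC : C ⊆ S.erase r) (hu : u ∈ C) (hur : G.Adj u r)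
    (h1 : IsPar G C u π₁) (h2 : IsPar G (S \ C) r π₂) : IsPar G S r (glue r C u π₁ π₂) := by
  have hrC : r ∉ C := fun h => by have := hC h; simp at this
  have hCS : ∀ v ∈ C, v ∈ S := fun v hv => by have := hC hv; simp at this; exact this.2
  refine ⟨?_, ?_, ?_⟩
  · intro v hv
    have hvC : v ∉ C := by
      rcases hv with h | h
      · exact fun h' => h (hCS v h')
      · rw [h]; exact hrC
    rw [glue_D hvC hu]
    apply h2.1
    rcases hv with h | h
    · exact Or.inl (by simp [h])
    · exact Or.inr h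
  · intro v hv hvr
    by_cases hvC : v ∈ C
    · by_cases hvu : v = u
      · rw [hvu, glue_u]; exact ⟨hr, hur⟩
      · rw [glue_C hvC hvu]
        obtain ⟨h3, h4⟩ := h1.2.1 v hvC hvu
        exact ⟨hCS _ h3, h4⟩
    · rw [glue_D hvC hu]
      obtain ⟨h3, h4⟩ := h2.2.1 v (by simp [hv, hvC]) hvr
      simp at h3
      exact ⟨h3.1, h4⟩
  · intro v hv
    by_cases hvC : v ∈ C
    · obtain ⟨k, hk⟩ := h1.2.2 v hvC
      obtain ⟨j, hj⟩ := glue_reach_u (r := r) (π₂ := π₂) h1 k v hvC hk
      refine ⟨j + 1, ?_⟩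
      rw [Function.iterate_succ_apply', hj, glue_u]
    · have hv' : v ∈ S \ C := by simp [hv, hvC]
      obtain ⟨k, hk⟩ := h2.2.2 v hv'
      exact ⟨k, by rw [glue_iter_D hu h2 hv', hk]⟩

/-- `C` can be recovered from the glued function -/
lemma mem_C_iff (hr : r ∈ S) (hC : C ⊆ S.erase r) (hu : u ∈ C)
    (h1 : IsPar G C u π₁) (h2 : IsPar G (S \ C) r π₂) (v : V) :
    v ∈ C ↔ v ∈ S ∧ ∃ j, (glue r C u π₁ π₂)^[j] v = u := by
  have hCS : ∀ v ∈ C, v ∈ S := fun v hv => by have := hC hv; simp at this; exact this.2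
  constructor
  · intro hv
    obtain ⟨k, hk⟩ := h1.2.2 v hv
    exact ⟨hCS v hv, glue_reach_u h1 k v hv hk⟩
  · rintro ⟨hvS, j, hj⟩
    by_contra hvC
    have hv' : v ∈ S \ C := by simp [hvS, hvC]
    rw [glue_iter_D hu h2 hv'] at hj
    have := h2.iter_mem hv' j
    rw [hj] at this
    simp at this
    exact this.2 hu

end

lemma unique_top {π : V → V} {r y u u' : V} (hr : π r = r) (hu : u ≠ r) (hu' : u' ≠ r)
    (h1 : π u = r) (h1' : π u' = r) {j j' : ℕ} (hj : π^[j] y = u) (hj' : π^[j'] y = u') :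
    u = u' := by
  rcases lt_trichotomy j j' with h | h | h
  · exfalso
    obtain ⟨d, rfl⟩ := Nat.exists_eq_add_of_lt h
    have : π^[j + d + 1] y = π^[d] (π (π^[j] y)) := by
      rw [← Function.iterate_succ_apply' π, ← Function.iterate_add_apply]
      congr 1
      omega
    rw [this, hj, h1, iter_fix hr] at hj'
    exact hu' hj'.symm
  · rw [← hj, ← hj', h]
  · exfalso
    obtain ⟨d, rfl⟩ := Nat.exists_eq_add_of_lt h
    have : π^[j' + d + 1] y = π^[d] (π (π^[j'] y)) := by
      rw [← Function.iterate_succ_apply' π, ← Function.iterate_add_apply]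
      congr 1
      omega
    rw [this, hj', h1', iter_fix hr] at hj
    exact hu hj.symm

/-- the decomposition at the component of `y` after removal of the root -/
theorem card_rec (G : SimpleGraph V) (S : Finset V) (r y : V) (hr : r ∈ S) (hy : y ∈ S)
    (hyr : y ≠ r) :
    (Par G S r).card = ∑ C ∈ (S.erase r).powerset.filter (fun C => y ∈ C),
      ∑ u ∈ C.filter (fun u => G.Adj u r), (Par G C u).card * (Par G (S \ C) r).card := by
  set T : Finset (Σ _ : Finset V, Σ _ : V, (V → V) × (V → V)) :=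
    ((S.erase r).powerset.filter (fun C => y ∈ C)).sigma (fun C =>
      (C.filter (fun u => G.Adj u r)).sigma (fun u => (Par G C u) ×ˢ (Par G (S \ C) r))) with hT
  have hcard : T.card = ∑ C ∈ (S.erase r).powerset.filter (fun C => y ∈ C),
      ∑ u ∈ C.filter (fun u => G.Adj u r), (Par G C u).card * (Par G (S \ C) r).card := by
    rw [hT, card_sigma]
    apply sum_congr rfl
    intro C _
    rw [card_sigma]
    apply sum_congr rfl
    intro u _
    rw [card_product]
  rw [← hcard]
  symm
  have hmem : ∀ t : (Σ _ : Finset V, Σ _ : V, (V → V) × (V → V)), t ∈ T ↔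
      (t.1 ⊆ S.erase r ∧ y ∈ t.1) ∧ (t.2.1 ∈ t.1 ∧ G.Adj t.2.1 r) ∧
        IsPar G t.1 t.2.1 t.2.2.1 ∧ IsPar G (S \ t.1) r t.2.2.2 := by
    intro t
    rw [hT, mem_sigma, mem_sigma, mem_product, mem_filter, mem_powerset, mem_filter, mem_Par,
      mem_Par]
  apply card_bij (fun t _ => glue r t.1 t.2.1 t.2.2.1 t.2.2.2)
  · intro t ht
    obtain ⟨⟨hC, _⟩, ⟨hu, hur⟩, h1, h2⟩ := (hmem t).1 ht
    exact mem_Par.2 (glue_isPar hr hC hu hur h1 h2)
  · rintro ⟨C, u, π₁, π₂⟩ ht ⟨C', u', π₁', π₂'⟩ ht' heq
    obtain ⟨⟨hC, hyC⟩, ⟨hu, hur⟩, h1, h2⟩ := (hmem _).1 ht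
    obtain ⟨⟨hC', hyC'⟩, ⟨hu', hur'⟩, h1', h2'⟩ := (hmem _).1 ht'
    simp only at hC hyC hu hur h1 h2 hC' hyC' hu' hur' h1' h2' heq
    have hur0 : u ≠ r := by
      rintro rfl
      have := hC hu
      simp at this
    have hur0' : u' ≠ r := by
      rintro rfl
      have := hC' hu'
      simp at this
    have hgr : glue r C u π₁ π₂ r = r := (glue_isPar hr hC hu hur h1 h2).root
    obtain ⟨k, hk⟩ := h1.2.2 y hyC
    obtain ⟨j, hj⟩ := glue_reach_u (r := r) (π₂ := π₂) h1 k y hyC hk
    obtain ⟨k', hk'⟩ := h1'.2.2 y hyC'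
    obtain ⟨j', hj'⟩ := glue_reach_u (r := r) (π₂ := π₂') h1' k' y hyC' hk'
    rw [← heq] at hj'
    have huu : u = u' := by
      refine unique_top hgr hur0 hur0' (glue_u _ _ _ _ _) ?_ hj hj'
      rw [heq]
      exact glue_u _ _ _ _ _
    subst huu
    have hCC : C = C' := by
      ext v
      rw [mem_C_iff hr hC hu h1 h2, mem_C_iff hr hC' hu' h1' h2', heq]
    subst hCC
    have e1 : π₁ = π₁' := by
      funext v
      by_cases hv : v ∈ C ∧ v ≠ u
      · have := congrFun heq v
        rwa [glue_C hv.1 hv.2, glue_C hv.1 hv.2] at this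
      · have hv' : v ∉ C ∨ v = u := by tauto
        rw [h1.1 v hv', h1'.1 v hv']
    have e2 : π₂ = π₂' := by
      funext v
      by_cases hv : v ∈ C
      · have hv' : v ∉ S \ C ∨ v = r := Or.inl (by simp [hv])
        rw [h2.1 v hv', h2'.1 v hv']
      · have := congrFun heq v
        rwa [glue_D hv hu, glue_D hv hu] at this
    rw [e1, e2]
  · intro π hπ
    have h := mem_Par.1 hπ
    -- the top vertex
    obtain ⟨k, hk⟩ := h.2.2 y hy
    have hex : ∃ k, π^[k] y = r := ⟨k, hk⟩
    set m := Nat.find hex with hm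
    have hm1 : π^[m] y = r := Nat.find_spec hex
    have hm0 : m ≠ 0 := by
      intro h0
      rw [h0] at hm1
      exact hyr hm1
    obtain ⟨l, hl⟩ := Nat.exists_eq_succ_of_ne_zero hm0
    set u := π^[l] y with hu
    have hur : u ≠ r := by
      intro h0
      have : m ≤ l := Nat.find_min' hex h0
      omega
    have hpu : π u = r := by
      rw [hu, ← Function.iterate_succ_apply' π]
      rw [hl] at hm1
      exact hm1
    have huS : u ∈ S := h.iter_mem hy l
    set C : Finset V := S.filter (fun v => ∃ j, π^[j] v = u) with hC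
    have hrC : r ∉ C := by
      rw [hC, mem_filter]
      rintro ⟨_, j, hj⟩
      rw [iter_fix h.root] at hj
      exact hur hj.symm
    have huC : u ∈ C := by rw [hC, mem_filter]; exact ⟨huS, 0, rfl⟩
    have hyC : y ∈ C := by rw [hC, mem_filter]; exact ⟨hy, l, rfl⟩
    have hstep : ∀ v ∈ C, v ≠ u → π v ∈ C := by
      intro v hv hvu
      rw [hC, mem_filter] at hv ⊢
      obtain ⟨hvS, j, hj⟩ := hv
      refine ⟨h.mem hvS, ?_⟩
      rcases j with _ | j
      · exact absurd hj hvu
      · exact ⟨j, by rwa [Function.iterate_succ_apply] at hj⟩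
    have hstep' : ∀ v ∈ S \ C, π v ∈ S \ C := by
      intro v hv
      simp only [mem_sdiff] at hv ⊢
      refine ⟨h.mem hv.1, ?_⟩
      intro h3
      apply hv.2
      rw [hC, mem_filter] at h3 ⊢
      obtain ⟨_, j, hj⟩ := h3
      exact ⟨hv.1, j + 1, by rw [Function.iterate_succ_apply]; exact hj⟩
    set π₁ : V → V := fun v => if v ∈ C ∧ v ≠ u then π v else v with hπ₁
    set π₂ : V → V := fun v => if v ∈ C then v else π v with hπ₂
    have h1 : IsPar G C u π₁ := by
      refine ⟨?_, ?_, ?_⟩
      · intro v hv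
        rw [hπ₁]
        simp only
        rw [if_neg (by tauto)]
      · intro v hv hvu
        have e : π₁ v = π v := by rw [hπ₁]; simp only; rw [if_pos ⟨hv, hvu⟩]
        rw [e]
        have hvS : v ∈ S := (mem_filter.1 hv).1
        have hvr : v ≠ r := by rintro rfl; exact hrC hv
        exact ⟨hstep v hv hvu, (h.2.1 v hvS hvr).2⟩
      · have key : ∀ (j : ℕ) (v : V), v ∈ C → π^[j] v = u → ∃ i, π₁^[i] v = u := by
          intro j
          induction j with
          | zero => intro v _ hj; exact ⟨0, hj⟩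
          | succ j ih =>
            intro v hv hj
            by_cases hvu : v = u
            · exact ⟨0, hvu⟩
            · rw [Function.iterate_succ_apply] at hj
              obtain ⟨i, hi⟩ := ih (π v) (hstep v hv hvu) hj
              refine ⟨i + 1, ?_⟩
              have e : π₁ v = π v := by rw [hπ₁]; simp only; rw [if_pos ⟨hv, hvu⟩]
              rw [Function.iterate_succ_apply, e, hi]
        intro v hv
        obtain ⟨_, j, hj⟩ := mem_filter.1 hv
        exact key j v hv hj
    have h2 : IsPar G (S \ C) r π₂ := by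
      refine ⟨?_, ?_, ?_⟩
      · intro v hv
        rw [hπ₂]
        simp only
        by_cases hvC : v ∈ C
        · rw [if_pos hvC]
        · rw [if_neg hvC]
          apply h.1
          rcases hv with h3 | h3
          · simp only [mem_sdiff, not_and, not_not] at h3
            by_cases hvS : v ∈ S
            · exact absurd (h3 hvS) hvC
            · exact Or.inl hvS
          · exact Or.inr h3
      · intro v hv hvr
        have hv' := mem_sdiff.1 hv
        have e : π₂ v = π v := by rw [hπ₂]; simp only; rw [if_neg hv'.2]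
        rw [e]
        exact ⟨hstep' v hv, (h.2.1 v hv'.1 hvr).2⟩
      · have key : ∀ (j : ℕ) (v : V), v ∈ S \ C → π₂^[j] v = π^[j] v ∧ π^[j] v ∈ S \ C := by
          intro j
          induction j with
          | zero => intro v hv; exact ⟨rfl, hv⟩
          | succ j ih =>
            intro v hv
            obtain ⟨i1, i2⟩ := ih v hv
            rw [Function.iterate_succ_apply', Function.iterate_succ_apply', i1]
            refine ⟨?_, hstep' _ i2⟩
            rw [hπ₂]
            simp only
            rw [if_neg (mem_sdiff.1 i2).2]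
        intro v hv
        obtain ⟨j, hj⟩ := h.2.2 v (mem_sdiff.1 hv).1
        exact ⟨j, by rw [(key j v hv).1, hj]⟩
    refine ⟨⟨C, u, π₁, π₂⟩, (hmem _).2 ⟨⟨?_, hyC⟩, ⟨huC, ?_⟩, h1, h2⟩, ?_⟩
    · intro v hv
      rw [mem_erase]
      exact ⟨by rintro rfl; exact hrC hv, (mem_filter.1 hv).1⟩
    · have := (h.2.1 u huS hur).2
      rwa [hpu] at this
    · funext v
      simp only
      by_cases hvu : v = u
      · rw [hvu, glue_u, hpu]
      · by_cases hvC : v ∈ C
        · rw [glue_C hvC hvu, hπ₁]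
          simp only
          rw [if_pos ⟨hvC, hvu⟩]
        · rw [glue_D hvC huC, hπ₂]
          simp only
          rw [if_neg hvC]

end Pool.Agent.KS6_54.RSD.W151.TreeRec
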