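import Mathlib
import Pool.Agent.KS6_54.RSD.Abel

set_option autoImplicit false

/-! # Numerical part -/

namespace Pool.Agent.KS6_54.RSD.W151.TreeNum

open Finset

/-- `n^(n-2)` -/
def a (n : ℕ) : ℕ := n ^ (n - 2)

lemma a_pos {n : ℕ} (h : 1 ≤ n) : 0 < a n := Nat.pow_pos (by omega)

/-- the weights -/
noncomputable def W (M i : ℕ) : ℝ :=
  (M.choose i : ℝ) * ((i + 1 : ℕ) : ℝ) * (a (i + 1) : ℝ) * (a (M + 1 - i) : ℝ) / (a (M + 2) : ℝ)

lemma mul_a (i : ℕ) : (i + 1) * a (i + 1) = (i + 1) ^ i := by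
  unfold a
  rcases i with _ | i
  · simp
  · rw [show i + 1 + 1 - 2 = i by omega, pow_succ]
    ring

lemma sum_W (M : ℕ) : ∑ i ∈ range (M + 1), W M i = 1 := by
  have h := Abel.abel M
  have h2 : ∑ i ∈ range (M + 1), M.choose i * (i + 1) * a (i + 1) * a (M + 1 - i) = a (M + 2) := by
    have e : a (M + 2) = (M + 2) ^ M := by unfold a; simp
    rw [e, ← h, ← sum_range_reflect]
    apply sum_congr rfl
    intro j hj
    have hj' : j ≤ M := by simpa [Nat.lt_succ_iff] using hj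
    rw [show M + 1 - 1 - j = M - j by omega, Nat.choose_symm hj', mul_assoc (M.choose j),
      mul_a, show M + 1 - (M - j) = j + 1 by omega, show M - j + 1 = M + 1 - j by omega]
    have e2 : a (j + 1) = (j + 1) ^ (j - 1) := by
      unfold a
      congr 1
    rw [e2]
    ring
  have h3 : (0 : ℝ) < a (M + 2) := by exact_mod_cast a_pos (by omega)
  unfold W
  rw [← sum_div, div_eq_one_iff_eq h3.ne']
  exact_mod_cast h2

lemma W_nonneg (M i : ℕ) : 0 ≤ W M i := by unfold W; positivity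

/-- `(1+1/j)^(j-1)` increases -/
lemma theta_step (j : ℕ) (hj : 1 ≤ j) :
    (j + 1) ^ (j - 1) * (j + 1) ^ j ≤ (j + 2) ^ j * j ^ (j - 1) := by
  obtain ⟨i, rfl⟩ : ∃ i, j = i + 1 := ⟨j - 1, by omega⟩
  have hN : (0 : ℝ) < (i : ℝ) + 2 := by positivity
  -- Bernoulli
  have hb := one_add_mul_le_pow (a := -(1 / ((i : ℝ) + 2) ^ 2)) (by
    have : 1 / ((i : ℝ) + 2) ^ 2 ≤ 1 := by
      rw [div_le_one (by positivity)]
      nlinarith
    linarith) i
  have h1 : (1 : ℝ) ≤ (1 + (i : ℝ) * -(1 / ((i : ℝ) + 2) ^ 2)) * (((i : ℝ) + 3) / ((i : ℝ) + 2)) := by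
    have e : (1 + (i : ℝ) * -(1 / ((i : ℝ) + 2) ^ 2)) * (((i : ℝ) + 3) / ((i : ℝ) + 2)) =
        1 + ((i : ℝ) + 4) / ((i : ℝ) + 2) ^ 3 := by
      field_simp
      ring
    rw [e]
    have : (0 : ℝ) ≤ ((i : ℝ) + 4) / ((i : ℝ) + 2) ^ 3 := by positivity
    linarith
  have h2 : (1 : ℝ) ≤ (1 + -(1 / ((i : ℝ) + 2) ^ 2)) ^ i * (((i : ℝ) + 3) / ((i : ℝ) + 2)) :=
    h1.trans (mul_le_mul_of_nonneg_right hb (by positivity))
  have h3 : (1 + -(1 / ((i : ℝ) + 2) ^ 2)) = (((i : ℝ) + 3) * ((i : ℝ) + 1)) / ((i : ℝ) + 2) ^ 2 := by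
    field_simp
    ring
  rw [h3, div_pow, div_mul_div_comm, le_div_iff₀ (by positivity), one_mul] at h2
  have h4 : ((i + 1 + 1 : ℕ) : ℝ) ^ (i + 1 - 1) * ((i + 1 + 1 : ℕ) : ℝ) ^ (i + 1) ≤
      ((i + 1 + 2 : ℕ) : ℝ) ^ (i + 1) * ((i + 1 : ℕ) : ℝ) ^ (i + 1 - 1) := by
    rw [Nat.add_sub_cancel]
    push_cast
    rw [show (i : ℝ) + 1 + 1 = (i : ℝ) + 2 by ring, show (i : ℝ) + 1 + 2 = (i : ℝ) + 3 by ring]
    calc ((i : ℝ) + 2) ^ i * ((i : ℝ) + 2) ^ (i + 1) = (((i : ℝ) + 2) ^ 2) ^ i * ((i : ℝ) + 2) := by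
          rw [← pow_mul]; ring
      _ ≤ (((i : ℝ) + 3) * ((i : ℝ) + 1)) ^ i * ((i : ℝ) + 3) := h2
      _ = _ := by rw [mul_pow]; ring
  exact_mod_cast h4

/-- `(1+1/k)^k` increases -/
lemma e_step (k : ℕ) (hk : 1 ≤ k) :
    (k + 1) ^ k * (k + 1) ^ (k + 1) ≤ (k + 2) ^ (k + 1) * k ^ k := by
  have hN : (0 : ℝ) < (k : ℝ) + 1 := by positivity
  have hb := one_add_mul_le_pow (a := -(1 / ((k : ℝ) + 1) ^ 2)) (by
    have : 1 / ((k : ℝ) + 1) ^ 2 ≤ 1 := by
      rw [div_le_one (by positivity)]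
      nlinarith
    linarith) k
  have h1 : (1 : ℝ) ≤ (1 + (k : ℝ) * -(1 / ((k : ℝ) + 1) ^ 2)) * (((k : ℝ) + 2) / ((k : ℝ) + 1)) := by
    have e : (1 + (k : ℝ) * -(1 / ((k : ℝ) + 1) ^ 2)) * (((k : ℝ) + 2) / ((k : ℝ) + 1)) =
        1 + 1 / ((k : ℝ) + 1) ^ 3 := by
      field_simp
      ring
    rw [e]
    have : (0 : ℝ) ≤ 1 / ((k : ℝ) + 1) ^ 3 := by positivity
    linarith
  have h2 : (1 : ℝ) ≤ (1 + -(1 / ((k : ℝ) + 1) ^ 2)) ^ k * (((k : ℝ) + 2) / ((k : ℝ) + 1)) :=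
    h1.trans (mul_le_mul_of_nonneg_right hb (by positivity))
  have h3 : (1 + -(1 / ((k : ℝ) + 1) ^ 2)) = (((k : ℝ) + 2) * (k : ℝ)) / ((k : ℝ) + 1) ^ 2 := by
    field_simp
    ring
  rw [h3, div_pow, div_mul_div_comm, le_div_iff₀ (by positivity), one_mul] at h2
  have h4 : ((k + 1 : ℕ) : ℝ) ^ k * ((k + 1 : ℕ) : ℝ) ^ (k + 1) ≤
      ((k + 2 : ℕ) : ℝ) ^ (k + 1) * ((k : ℕ) : ℝ) ^ k := by
    push_cast
    calc ((k : ℝ) + 1) ^ k * ((k : ℝ) + 1) ^ (k + 1) = (((k : ℝ) + 1) ^ 2) ^ k * ((k : ℝ) + 1) := by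
          rw [← pow_mul]; ring
      _ ≤ (((k : ℝ) + 2) * (k : ℝ)) ^ k * ((k : ℝ) + 2) := h2
      _ = _ := by rw [mul_pow]; ring
  exact_mod_cast h4

/-- `(1+1/j)^(j-1)` -/
noncomputable def th (j : ℕ) : ℝ := ((j + 1 : ℕ) : ℝ) ^ (j - 1) / (j : ℝ) ^ (j - 1)

/-- `(1+1/k)^k` -/
noncomputable def ee (k : ℕ) : ℝ := ((k + 1 : ℕ) : ℝ) ^ k / (k : ℝ) ^ k

lemma th_le {j m : ℕ} (hj : 1 ≤ j) (h : j ≤ m) : th j ≤ th m := by
  induction m, h using Nat.le_induction with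
  | base => exact le_refl _
  | succ m hm ih =>
    refine ih.trans ?_
    unfold th
    have hm1 : 1 ≤ m := hj.trans hm
    have hm0 : (0 : ℝ) < m := by exact_mod_cast hm1
    rw [Nat.add_sub_cancel, div_le_div_iff₀ (by positivity) (by positivity)]
    exact_mod_cast theta_step m hm1

lemma ee_le {j m : ℕ} (hj : 1 ≤ j) (h : j ≤ m) : ee j ≤ ee m := by
  induction m, h using Nat.le_induction with
  | base => exact le_refl _
  | succ m hm ih =>
    refine ih.trans ?_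
    unfold ee
    have hm1 : 1 ≤ m := hj.trans hm
    have hm0 : (0 : ℝ) < m := by exact_mod_cast hm1
    rw [div_le_div_iff₀ (by positivity) (by positivity)]
    exact_mod_cast e_step m hm1

/-- `a (j+1) = j * a j * th j` -/
lemma a_succ {j : ℕ} (hj : 1 ≤ j) : (a (j + 1) : ℝ) = j * a j * th j := by
  have hj0 : (0 : ℝ) < j := by exact_mod_cast hj
  have h1 : (j : ℝ) * (a j : ℝ) = (j : ℝ) ^ (j - 1) := by
    obtain ⟨i, rfl⟩ : ∃ i, j = i + 1 := ⟨j - 1, by omega⟩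
    rw [Nat.add_sub_cancel]
    exact_mod_cast mul_a i
  rw [h1]
  unfold th
  rw [mul_div_cancel₀ _ (by positivity)]
  unfold a
  push_cast
  rfl

lemma a_succ' {k : ℕ} (hk : 1 ≤ k) : ((k + 1 : ℕ) : ℝ) * (a (k + 1) : ℝ) =
    (k : ℝ) * (k * a k) * ee k := by
  have hk0 : (0 : ℝ) < k := by exact_mod_cast hk
  have h1 : (k : ℝ) * ((k : ℝ) * (a k : ℝ)) = (k : ℝ) ^ k := by
    obtain ⟨i, rfl⟩ : ∃ i, k = i + 1 := ⟨k - 1, by omega⟩
    have : (((i + 1 : ℕ) : ℝ) * (a (i + 1) : ℝ)) = ((i + 1 : ℕ) : ℝ) ^ i := by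
      exact_mod_cast mul_a i
    rw [this, pow_succ]
    ring
  rw [h1]
  unfold ee
  rw [mul_div_cancel₀ _ (by positivity)]
  exact_mod_cast mul_a k

lemma th_pos (j : ℕ) (hj : 1 ≤ j) : 0 < th j := by
  unfold th
  have : (0 : ℝ) < j := by exact_mod_cast hj
  positivity

lemma ee_eq (M : ℕ) (hM : 1 ≤ M) : (M : ℝ) * ee M = ((M : ℝ) + 1) * th M := by
  obtain ⟨i, rfl⟩ : ∃ i, M = i + 1 := ⟨M - 1, by omega⟩
  unfold ee th
  rw [Nat.add_sub_cancel]
  have : (0 : ℝ) < ((i + 1 : ℕ) : ℝ) := by positivity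
  rw [pow_succ, pow_succ]
  field_simp
  push_cast
  ring

lemma choose_mul (M i : ℕ) (hM : 1 ≤ M) (hi : i < M) :
    ((M.choose i : ℕ) : ℝ) * ((M - i : ℕ) : ℝ) = (M : ℝ) * ((M - 1).choose i : ℝ) := by
  obtain ⟨N, rfl⟩ : ∃ N, M = N + 1 := ⟨M - 1, by omega⟩
  have h5 := Nat.choose_mul_succ_eq N i
  rw [Nat.add_sub_cancel]
  have : (N + 1).choose i * (N + 1 - i) = (N + 1) * N.choose i := by rw [← h5]; ring
  exact_mod_cast this

lemma choose_mul' (M i : ℕ) (hM : 1 ≤ M) :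
    ((M.choose (i + 1) : ℕ) : ℝ) * ((i + 1 : ℕ) : ℝ) = (M : ℝ) * ((M - 1).choose i : ℝ) := by
  obtain ⟨N, rfl⟩ : ∃ N, M = N + 1 := ⟨M - 1, by omega⟩
  have h5 := Nat.add_one_mul_choose_eq N i
  rw [Nat.add_sub_cancel]
  exact_mod_cast h5.symm

lemma W1 (M i : ℕ) (hi : i < M) : W M i ≤ W (M - 1) i := by
  have hM : 1 ≤ M := by omega
  have e1 : (a (M + 1 - i) : ℝ) = ((M - i : ℕ) : ℝ) * a (M - i) * th (M - i) := by
    rw [show M + 1 - i = (M - i) + 1 by omega]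
    exact a_succ (by omega)
  have e2 : (a (M + 2) : ℝ) = ((M + 1 : ℕ) : ℝ) * a (M + 1) * th (M + 1) := a_succ (by omega)
  have e3 : W M i = W (M - 1) i * (((M : ℝ) * th (M - i)) / (((M + 1 : ℕ) : ℝ) * th (M + 1))) := by
    unfold W
    rw [e1, e2, show M - 1 + 1 - i = M - i by omega, show M - 1 + 2 = M + 1 by omega]
    have h1 := choose_mul M i hM hi
    have h2 : (0 : ℝ) < a (M + 1) := by exact_mod_cast a_pos (by omega)
    have h3 := th_pos (M + 1) (by omega)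
    have h4 : (0 : ℝ) < ((M + 1 : ℕ) : ℝ) := by positivity
    rw [div_mul_div_comm, div_eq_div_iff (by positivity) (by positivity)]
    linear_combination (((i + 1 : ℕ) : ℝ) * (a (i + 1) : ℝ) * a (M - i) * th (M - i) *
      (a (M + 1) * (((M + 1 : ℕ) : ℝ) * th (M + 1)))) * h1
  rw [e3]
  have h5 : ((M : ℝ) * th (M - i)) / (((M + 1 : ℕ) : ℝ) * th (M + 1)) ≤ 1 := by
    have h3 := th_pos (M + 1) (by omega)
    rw [div_le_one (by positivity)]
    apply mul_le_mul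
    · push_cast; linarith
    · exact th_le (by omega) (by omega)
    · exact (th_pos _ (by omega)).le
    · positivity
  exact mul_le_of_le_one_right (W_nonneg _ _) h5

lemma W2 (M i : ℕ) (hi : i < M) : W M (i + 1) ≤ W (M - 1) i := by
  have hM : 1 ≤ M := by omega
  have e1 : ((i + 1 + 1 : ℕ) : ℝ) * (a (i + 1 + 1) : ℝ) =
      ((i + 1 : ℕ) : ℝ) * (((i + 1 : ℕ) : ℝ) * a (i + 1)) * ee (i + 1) := a_succ' (by omega)
  have e2 : (a (M + 2) : ℝ) = ((M + 1 : ℕ) : ℝ) * a (M + 1) * th (M + 1) := a_succ (by omega)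
  have e3 : W M (i + 1) = W (M - 1) i *
      (((M : ℝ) * ee (i + 1)) / (((M + 1 : ℕ) : ℝ) * th (M + 1))) := by
    unfold W
    rw [mul_assoc (M.choose (i + 1) : ℝ), e1, e2, show M - 1 + 1 - i = M - i by omega,
      show M - 1 + 2 = M + 1 by omega, show M + 1 - (i + 1) = M - i by omega]
    have h1 := choose_mul' M i hM
    have h2 : (0 : ℝ) < a (M + 1) := by exact_mod_cast a_pos (by omega)
    have h3 := th_pos (M + 1) (by omega)
    have h4 : (0 : ℝ) < ((M + 1 : ℕ) : ℝ) := by positivity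
    rw [div_mul_div_comm, div_eq_div_iff (by positivity) (by positivity)]
    linear_combination (((i + 1 : ℕ) : ℝ) * (a (i + 1) : ℝ) * a (M - i) * ee (i + 1) *
      (a (M + 1) * (((M + 1 : ℕ) : ℝ) * th (M + 1)))) * h1
  rw [e3]
  have h5 : ((M : ℝ) * ee (i + 1)) / (((M + 1 : ℕ) : ℝ) * th (M + 1)) ≤ 1 := by
    have h3 := th_pos (M + 1) (by omega)
    rw [div_le_one (by positivity)]
    calc (M : ℝ) * ee (i + 1) ≤ M * ee M :=
          mul_le_mul_of_nonneg_left (ee_le (by omega) (by omega)) (by positivity)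
      _ = ((M : ℝ) + 1) * th M := ee_eq M hM
      _ ≤ ((M : ℝ) + 1) * th (M + 1) :=
          mul_le_mul_of_nonneg_left (th_le hM (by omega)) (by positivity)
      _ = _ := by push_cast; ring
  exact mul_le_of_le_one_right (W_nonneg _ _) h5

/-- transport of a weighted sum along a monotone coupling -/
lemma flow (M : ℕ) (p q g h : ℕ → ℝ) (h1 : ∀ i < M, p i ≤ q i) (h2 : ∀ i < M, p (i + 1) ≤ q i)
    (hsum : ∑ i ∈ range (M + 1), p i = ∑ i ∈ range M, q i)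
    (h3 : ∀ i < M, g i ≤ h i) (h4 : ∀ i < M, g (i + 1) ≤ h i) :
    ∑ i ∈ range (M + 1), p i * g i ≤ ∑ i ∈ range M, q i * h i := by
  have hy : ∀ j ≤ M, 0 ≤ ∑ i ∈ range j, (q i - p i) := by
    intro j hj
    apply sum_nonneg
    intro i hi
    have := h1 i (by have := mem_range.1 hi; omega)
    linarith
  -- `p j ≥ y j`
  have hx' : ∀ d ≤ M, ∑ i ∈ range (M - d), q i ≤ ∑ i ∈ range (M - d + 1), p i := by
    intro d
    induction d with
    | zero => intro _; rw [Nat.sub_zero, hsum]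
    | succ d ih =>
      intro hd
      have h5 := ih (by omega)
      have e : M - d = M - (d + 1) + 1 := by omega
      rw [e, sum_range_succ q, sum_range_succ p (M - (d + 1) + 1)] at h5
      have h6 := h2 (M - (d + 1)) (by omega)
      linarith
  have hx : ∀ j ≤ M, ∑ i ∈ range j, (q i - p i) ≤ p j := by
    intro j hj
    have h5 := hx' (M - j) (by omega)
    rw [show M - (M - j) = j by omega, sum_range_succ p] at h5
    rw [sum_sub_distrib]
    linarith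
  have key : ∀ j ≤ M, (∑ i ∈ range j, (q i - p i)) * g j ≤
      ∑ i ∈ range j, q i * h i - ∑ i ∈ range j, p i * g i := by
    intro j
    induction j with
    | zero => intro _; simp
    | succ j ih =>
      intro hj
      have h5 := ih (by omega)
      have h6 := hx j (by omega)
      have h7 := hy (j + 1) hj
      have h8 := h3 j (by omega)
      have h9 := h4 j (by omega)
      rw [sum_range_succ, sum_range_succ, sum_range_succ]
      rw [sum_range_succ] at h7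
      have h10 : (∑ i ∈ range j, (q i - p i) + (q j - p j)) * g (j + 1) ≤
          (∑ i ∈ range j, (q i - p i) + (q j - p j)) * h j :=
        mul_le_mul_of_nonneg_left h9 h7
      have h11 : (p j - ∑ i ∈ range j, (q i - p i)) * g j ≤
          (p j - ∑ i ∈ range j, (q i - p i)) * h j :=
        mul_le_mul_of_nonneg_left h8 (by linarith)
      nlinarith
  have h5 := key M le_rfl
  have h6 : ∑ i ∈ range M, (q i - p i) = p M := by
    rw [sum_sub_distrib, ← hsum, sum_range_succ]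
    ring
  rw [h6] at h5
  rw [sum_range_succ]
  linarith

end Pool.Agent.KS6_54.RSD.W151.TreeNum
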