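import Mathlib
import Pool.Agent.KS6_54.RSD.TreeLink
import Pool.Agent.KS6_54.RSD.TreeNum

set_option autoImplicit false
set_option linter.unusedSectionVars false

/-! # The normalised number of spanning trees is at most its average over vertex deletions -/

namespace Pool.Agent.KS6_54.RSD.W151.TreeIneq

open Finset TreeRec TreeNum

attribute [local instance] Classical.propDecidable

variable {V : Type} [Fintype V]

/-- number of trees on `C` with an edge to `r` -/
noncomputable def E (G : SimpleGraph V) (r : V) (C : Finset V) : ℝ :=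
  ((C.filter (fun u => G.Adj u r)).card : ℝ) * (tau G C : ℝ)

lemma E_nonneg (G : SimpleGraph V) (r : V) (C : Finset V) : 0 ≤ E G r C := by
  unfold E; positivity

lemma rec_one (G : SimpleGraph V) {S : Finset V} {r y : V} (hr : r ∈ S) (hy : y ∈ S.erase r) :
    (tau G S : ℝ) = ∑ C ∈ (S.erase r).powerset.filter (fun C => y ∈ C),
      E G r C * (tau G (S \ C) : ℝ) := by
  have h := card_rec G S r y hr (mem_of_mem_erase hy) (ne_of_mem_erase hy)
  rw [tau_eq G S r hr, h]
  push_cast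
  apply sum_congr rfl
  intro C hC
  rw [mem_filter, mem_powerset] at hC
  have hrC : r ∉ C := fun h => by have := hC.1 h; simp at this
  have h1 : ∀ u ∈ C.filter (fun u => G.Adj u r),
      (((Par G C u).card : ℝ) * ((Par G (S \ C) r).card : ℝ)) =
      (tau G C : ℝ) * (tau G (S \ C) : ℝ) := by
    intro u hu
    rw [tau_eq G C u (mem_filter.1 hu).1, tau_eq G (S \ C) r (by simp [hr, hrC])]
  rw [sum_congr rfl h1, sum_const, nsmul_eq_mul]
  unfold E
  ring

lemma rec_sum (G : SimpleGraph V) {S : Finset V} {r : V} (hr : r ∈ S) :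
    ((S.erase r).card : ℝ) * (tau G S : ℝ) = ∑ C ∈ (S.erase r).powerset,
      (C.card : ℝ) * (E G r C * (tau G (S \ C) : ℝ)) := by
  have h1 : ∑ y ∈ S.erase r, (tau G S : ℝ) = ∑ y ∈ S.erase r,
      ∑ C ∈ (S.erase r).powerset.filter (fun C => y ∈ C), E G r C * (tau G (S \ C) : ℝ) :=
    sum_congr rfl (fun y hy => rec_one G hr hy)
  rw [sum_const, nsmul_eq_mul] at h1
  rw [h1, sum_comm' (s' := fun C => C) (t' := (S.erase r).powerset)]
  · apply sum_congr rfl
    intro C _
    rw [sum_const, nsmul_eq_mul]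
  · intro y C
    simp only [mem_filter, mem_powerset]
    constructor
    · rintro ⟨_, h2, h3⟩; exact ⟨h3, h2⟩
    · rintro ⟨h2, h3⟩; exact ⟨h3 h2, h3, h2⟩

/-- indexed by the size -/
lemma rec_card (G : SimpleGraph V) {S : Finset V} {r : V} (hr : r ∈ S) {m : ℕ}
    (hm : (S.erase r).card = m) :
    (m : ℝ) * (tau G S : ℝ) = ∑ i ∈ range m, ((i + 1 : ℕ) : ℝ) *
      ∑ C ∈ powersetCard (i + 1) (S.erase r), E G r C * (tau G (S \ C) : ℝ) := by
  have h := rec_sum G hr
  rw [sum_powerset, hm, sum_range_succ'] at h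
  rw [h]
  have h0 : ∑ t ∈ powersetCard 0 (S.erase r),
      ((t.card : ℝ) * (E G r t * (tau G (S \ t) : ℝ))) = 0 := by
    simp
  rw [h0, add_zero]
  apply sum_congr rfl
  intro i _
  rw [mul_sum]
  apply sum_congr rfl
  intro C hC
  rw [(mem_powersetCard.1 hC).2]

/-- sum over the vertex deletions -/
lemma rec_card' (G : SimpleGraph V) {S : Finset V} {r : V} (hr : r ∈ S) {M : ℕ}
    (hm : (S.erase r).card = M + 1) :
    (M : ℝ) * ∑ v ∈ S.erase r, (tau G (S.erase v) : ℝ) = ∑ i ∈ range M, ((i + 1 : ℕ) : ℝ) *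
      ∑ v ∈ S.erase r, ∑ C ∈ powersetCard (i + 1) ((S.erase r).erase v),
        E G r C * (tau G ((S.erase v) \ C) : ℝ) := by
  rw [mul_sum]
  have h1 : ∀ v ∈ S.erase r, (M : ℝ) * (tau G (S.erase v) : ℝ) =
      ∑ i ∈ range M, ((i + 1 : ℕ) : ℝ) *
      ∑ C ∈ powersetCard (i + 1) ((S.erase r).erase v),
        E G r C * (tau G ((S.erase v) \ C) : ℝ) := by
    intro v hv
    have hrv : r ∈ S.erase v := mem_erase.2 ⟨(ne_of_mem_erase hv).symm, hr⟩
    have hc : ((S.erase v).erase r).card = M := by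
      rw [erase_right_comm, card_erase_of_mem hv, hm]; rfl
    have := rec_card G hrv hc
    rw [erase_right_comm] at this
    exact this
  rw [sum_congr rfl h1, sum_comm]
  apply sum_congr rfl
  intro i _
  rw [mul_sum]

/-- the statement for sets with `n` elements -/
def Stmt (G : SimpleGraph V) (n : ℕ) : Prop :=
  ∀ S : Finset V, S.card = n → ∀ r ∈ S,
    ((n - 1 : ℕ) : ℝ) * ((tau G S : ℝ) / (a n : ℝ)) ≤
      ∑ v ∈ S.erase r, (tau G (S.erase v) : ℝ) / (a (n - 1) : ℝ)

/-- removal outside `C` -/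
lemma ineq1 (G : SimpleGraph V) {S : Finset V} {r : V} (hr : r ∈ S) {k j : ℕ} (hj : 1 ≤ j)
    (hcard : S.card = k + j + 1) (hS : Stmt G (j + 1)) :
    (j : ℝ) * (a j : ℝ) * ∑ C ∈ powersetCard k (S.erase r), E G r C * (tau G (S \ C) : ℝ) ≤
      (a (j + 1) : ℝ) * ∑ v ∈ S.erase r, ∑ C ∈ powersetCard k ((S.erase r).erase v),
        E G r C * (tau G ((S.erase v) \ C) : ℝ) := by
  have haj : (0 : ℝ) < a j := by exact_mod_cast a_pos hj
  have haj1 : (0 : ℝ) < a (j + 1) := by exact_mod_cast a_pos (by omega)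
  have h1 : ∀ C ∈ powersetCard k (S.erase r), (j : ℝ) * (a j : ℝ) * (tau G (S \ C) : ℝ) ≤
      (a (j + 1) : ℝ) * ∑ v ∈ (S.erase r) \ C, (tau G ((S.erase v) \ C) : ℝ) := by
    intro C hC
    rw [mem_powersetCard] at hC
    have hrC : r ∉ C := fun h => by have := hC.1 h; simp at this
    have hCS : C ⊆ S := hC.1.trans (erase_subset _ _)
    have h2 := hS (S \ C) (by rw [card_sdiff_of_subset hCS, hC.2]; omega) r (by simp [hr, hrC])
    rw [Nat.add_sub_cancel] at h2
    have e1 : (S \ C).erase r = (S.erase r) \ C := by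
      ext v; simp only [mem_erase, mem_sdiff]; tauto
    rw [e1] at h2
    have e2 : ∀ v, (S \ C).erase v = (S.erase v) \ C := by
      intro v; ext w; simp only [mem_erase, mem_sdiff]; tauto
    simp only [e2] at h2
    rw [← sum_div, ← mul_div_assoc, div_le_div_iff₀ haj1 haj] at h2
    linarith
  have h3 : ∑ v ∈ S.erase r, ∑ C ∈ powersetCard k ((S.erase r).erase v),
        E G r C * (tau G ((S.erase v) \ C) : ℝ) =
      ∑ C ∈ powersetCard k (S.erase r), ∑ v ∈ (S.erase r) \ C,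
        E G r C * (tau G ((S.erase v) \ C) : ℝ) := by
    apply sum_comm'
    intro v C
    simp only [mem_powersetCard, mem_sdiff, subset_erase]
    tauto
  rw [h3, mul_sum, mul_sum]
  apply sum_le_sum
  intro C hC
  rw [← mul_sum]
  have h4 := mul_le_mul_of_nonneg_left (h1 C hC) (E_nonneg G r C)
  linarith

lemma E_ineq (G : SimpleGraph V) {r : V} {k : ℕ} (hk : 1 ≤ k) {C : Finset V}
    (hC : C.card = k + 1) (hS : Stmt G (k + 1)) :
    (k : ℝ) * (a k : ℝ) * E G r C ≤ (a (k + 1) : ℝ) * ∑ v ∈ C, E G r (C.erase v) := by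
  have hak : (0 : ℝ) < a k := by exact_mod_cast a_pos hk
  have hak1 : (0 : ℝ) < a (k + 1) := by exact_mod_cast a_pos (by omega)
  have h1 : ∀ u ∈ C.filter (fun u => G.Adj u r), (k : ℝ) * (a k : ℝ) * (tau G C : ℝ) ≤
      (a (k + 1) : ℝ) * ∑ v ∈ C.erase u, (tau G (C.erase v) : ℝ) := by
    intro u hu
    have h2 := hS C hC u (mem_filter.1 hu).1
    rw [Nat.add_sub_cancel, ← sum_div, ← mul_div_assoc, div_le_div_iff₀ hak1 hak] at h2
    linarith
  have h2 := sum_le_sum h1
  rw [sum_const, nsmul_eq_mul, ← mul_sum] at h2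
  have h3 : ∑ u ∈ C.filter (fun u => G.Adj u r), ∑ v ∈ C.erase u, (tau G (C.erase v) : ℝ) =
      ∑ v ∈ C, ∑ u ∈ (C.erase v).filter (fun u => G.Adj u r), (tau G (C.erase v) : ℝ) := by
    apply sum_comm'
    intro u v
    simp only [mem_filter, mem_erase]
    constructor
    · rintro ⟨⟨h4, h5⟩, h6, h7⟩; exact ⟨⟨⟨h6.symm, h4⟩, h5⟩, h7⟩
    · rintro ⟨⟨⟨h4, h5⟩, h6⟩, h7⟩; exact ⟨⟨h5, h6⟩, h4.symm, h7⟩
  rw [h3] at h2
  have h4 : ∀ v ∈ C, ∑ u ∈ (C.erase v).filter (fun u => G.Adj u r), (tau G (C.erase v) : ℝ) =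
      E G r (C.erase v) := by
    intro v _
    rw [sum_const, nsmul_eq_mul]
    rfl
  rw [sum_congr rfl h4] at h2
  unfold E at h2 ⊢
  linarith

/-- removal inside `C` -/
lemma ineq2 (G : SimpleGraph V) {S : Finset V} {r : V} (hr : r ∈ S) {k : ℕ} (hk : 1 ≤ k)
    (hS : Stmt G (k + 1)) :
    (k : ℝ) * (a k : ℝ) * ∑ C ∈ powersetCard (k + 1) (S.erase r), E G r C * (tau G (S \ C) : ℝ) ≤
      (a (k + 1) : ℝ) * ∑ v ∈ S.erase r, ∑ C ∈ powersetCard k ((S.erase r).erase v),
        E G r C * (tau G ((S.erase v) \ C) : ℝ) := by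
  have h3 : ∑ C ∈ powersetCard (k + 1) (S.erase r), ∑ v ∈ C,
        E G r (C.erase v) * (tau G (S \ C) : ℝ) =
      ∑ v ∈ S.erase r, ∑ C ∈ powersetCard k ((S.erase r).erase v),
        E G r C * (tau G ((S.erase v) \ C) : ℝ) := by
    rw [sum_sigma', sum_sigma']
    refine sum_bij' (fun x _ => ⟨x.2, x.1.erase x.2⟩) (fun x _ => ⟨insert x.1 x.2, x.1⟩)
      ?_ ?_ ?_ ?_ ?_
    · rintro ⟨C, v⟩ h
      simp only [mem_sigma, mem_powersetCard] at h ⊢
      obtain ⟨⟨h1, h2⟩, h4⟩ := h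
      refine ⟨h1 h4, erase_subset_erase _ h1, ?_⟩
      rw [card_erase_of_mem h4, h2]; rfl
    · rintro ⟨v, C⟩ h
      simp only [mem_sigma, mem_powersetCard] at h ⊢
      obtain ⟨h1, h2, h4⟩ := h
      have hv : v ∉ C := fun h => by have := h2 h; simp at this
      refine ⟨⟨?_, ?_⟩, mem_insert_self _ _⟩
      · rw [insert_subset_iff]
        exact ⟨h1, h2.trans (erase_subset _ _)⟩
      · rw [card_insert_of_notMem hv, h4]
    · rintro ⟨C, v⟩ h
      simp only [mem_sigma, mem_powersetCard] at h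
      simp only
      rw [insert_erase h.2]
    · rintro ⟨v, C⟩ h
      simp only [mem_sigma, mem_powersetCard] at h
      obtain ⟨h1, h2, h4⟩ := h
      have hv : v ∉ C := fun h => by have := h2 h; simp at this
      simp only
      rw [erase_insert hv]
    · rintro ⟨C, v⟩ h
      simp only [mem_sigma, mem_powersetCard] at h
      simp only
      have e : (S.erase v) \ (C.erase v) = S \ C := by
        ext w
        simp only [mem_sdiff, mem_erase]
        constructor
        · rintro ⟨⟨h5, h6⟩, h7⟩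
          exact ⟨h6, fun h8 => h7 ⟨h5, h8⟩⟩
        · rintro ⟨h5, h6⟩
          refine ⟨⟨?_, h5⟩, fun h7 => h6 h7.2⟩
          rintro rfl
          exact h6 h.2
      rw [e]
  rw [← h3, mul_sum, mul_sum]
  apply sum_le_sum
  intro C hC
  rw [mem_powersetCard] at hC
  have h4 := E_ineq G (r := r) hk hC.2 hS
  rw [← sum_mul]
  have h5 := mul_le_mul_of_nonneg_right h4 (Nat.cast_nonneg (α := ℝ) (tau G (S \ C)))
  linarith

end Pool.Agent.KS6_54.RSD.W151.TreeIneq
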