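import Pool.Agent.KS6_54.RSD.Num
import Pool.Agent.KS6_54.RSD.TreeFinal

/-! Random seed trees: counting parent functions with prescribed branches at the root. -/

set_option linter.unusedSectionVars false

namespace Pool.Agent.KS6_54.RSD.Q287.RS

open Finset Pool.Agent.KS6_54.RSD.W151.TreeNum Pool.Agent.KS6_54.RSD.W151.TreeRec

attribute [local instance] Classical.propDecidable

variable {V : Type} [Fintype V]

/-- descendants of `x` -/
noncomputable def sb (S : Finset V) (π : V → V) (x : V) : Finset V :=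
  S.filter (fun v => ∃ j, π^[j] v = x)

/-- all the branches at the root have size at most `c` -/
def Small (S : Finset V) (r : V) (c : ℕ) (π : V → V) : Prop :=
  ∀ z ∈ S, z ≠ r → π z = r → (sb S π z).card ≤ c

/-- number of rooted trees with small branches -/
noncomputable def nb (S : Finset V) (r : V) (c : ℕ) : ℕ :=
  ((Par ⊤ S r).filter (Small S r c)).card

lemma mem_sb {S : Finset V} {π : V → V} {x v : V} : v ∈ sb S π x ↔ v ∈ S ∧ ∃ j, π^[j] v = x := by
  simp [sb]

lemma card_Par {S : Finset V} {r : V} (hr : r ∈ S) : (Par (⊤ : SimpleGraph V) S r).card = a S.card := by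
  rw [← tau_eq _ _ _ hr]
  exact Pool.Agent.KS6_54.RSD.W151.TreeIneq.tau_top _ S rfl (card_pos.2 ⟨r, hr⟩)

/-- cutting off a branch -/
lemma cut {S : Finset V} {r x : V} {π : V → V} (h : IsPar (⊤ : SimpleGraph V) S r π) (hx : x ∈ S)
    (hxr : x ≠ r) (hpx : π x = r) :
    ∃ π₁ π₂, IsPar ⊤ (sb S π x) x π₁ ∧ IsPar ⊤ (S \ sb S π x) r π₂ ∧
      glue r (sb S π x) x π₁ π₂ = π := by
  set C : Finset V := sb S π x with hC
  have hmem : ∀ v, v ∈ C ↔ v ∈ S ∧ ∃ j, π^[j] v = x := fun v => mem_sb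
  have hrC : r ∉ C := by
    rw [hmem]
    rintro ⟨_, j, hj⟩
    rw [iter_fix h.root] at hj
    exact hxr hj.symm
  have hxC : x ∈ C := by rw [hmem]; exact ⟨hx, 0, rfl⟩
  have hstep : ∀ v ∈ C, v ≠ x → π v ∈ C := by
    intro v hv hvu
    rw [hmem] at hv ⊢
    obtain ⟨hvS, j, hj⟩ := hv
    refine ⟨h.mem hvS, ?_⟩
    rcases j with _ | j
    · exact absurd hj hvu
    · exact ⟨j, by rwa [Function.iterate_succ_apply] at hj⟩
  have hstep' : ∀ v ∈ S \ C, π v ∈ S \ C := by
    intro v hv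
    simp only [mem_sdiff] at hv ⊢
    refine ⟨h.mem hv.1, ?_⟩
    intro h3
    apply hv.2
    rw [hmem] at h3 ⊢
    obtain ⟨_, j, hj⟩ := h3
    exact ⟨hv.1, j + 1, by rw [Function.iterate_succ_apply]; exact hj⟩
  set π₁ : V → V := fun v => if v ∈ C ∧ v ≠ x then π v else v with hπ₁
  set π₂ : V → V := fun v => if v ∈ C then v else π v with hπ₂
  have h1 : IsPar ⊤ C x π₁ := by
    refine ⟨?_, ?_, ?_⟩
    · intro v hv
      rw [hπ₁]
      simp only
      rw [if_neg (by tauto)]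
    · intro v hv hvu
      have e : π₁ v = π v := by rw [hπ₁]; simp only; rw [if_pos ⟨hv, hvu⟩]
      rw [e]
      have hvS : v ∈ S := ((hmem v).1 hv).1
      have hvr : v ≠ r := by rintro rfl; exact hrC hv
      exact ⟨hstep v hv hvu, (h.2.1 v hvS hvr).2⟩
    · have key : ∀ (j : ℕ) (v : V), v ∈ C → π^[j] v = x → ∃ i, π₁^[i] v = x := by
        intro j
        induction j with
        | zero => intro v _ hj; exact ⟨0, hj⟩
        | succ j ih =>
          intro v hv hj
          by_cases hvu : v = x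
          · exact ⟨0, hvu⟩
          · rw [Function.iterate_succ_apply] at hj
            obtain ⟨i, hi⟩ := ih (π v) (hstep v hv hvu) hj
            refine ⟨i + 1, ?_⟩
            have e : π₁ v = π v := by rw [hπ₁]; simp only; rw [if_pos ⟨hv, hvu⟩]
            rw [Function.iterate_succ_apply, e, hi]
      intro v hv
      obtain ⟨_, j, hj⟩ := (hmem v).1 hv
      exact key j v hv hj
  have h2 : IsPar ⊤ (S \ C) r π₂ := by
    refine ⟨?_, ?_, ?_⟩
    · intro v hv
      rw [hπ₂]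
      simp only
      by_cases hvC : v ∈ C
      · rw [if_pos hvC]
      · rw [if_neg hvC]
        apply h.1
        rcases hv with h3 | h3
        · simp only [mem_sdiff, not_and, not_not] at h3
          by_cases hvS : v ∈ S
          · exact absurd (h3 hvS) hvC
          · exact Or.inl hvS
        · exact Or.inr h3
    · intro v hv hvr
      have hv' := mem_sdiff.1 hv
      have e : π₂ v = π v := by rw [hπ₂]; simp only; rw [if_neg hv'.2]
      rw [e]
      exact ⟨hstep' v hv, (h.2.1 v hv'.1 hvr).2⟩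
    · have key : ∀ (j : ℕ) (v : V), v ∈ S \ C → π₂^[j] v = π^[j] v ∧ π^[j] v ∈ S \ C := by
        intro j
        induction j with
        | zero => intro v hv; exact ⟨rfl, hv⟩
        | succ j ih =>
          intro v hv
          obtain ⟨i1, i2⟩ := ih v hv
          rw [Function.iterate_succ_apply', Function.iterate_succ_apply', i1]
          refine ⟨?_, hstep' _ i2⟩
          rw [hπ₂]
          simp only
          rw [if_neg (mem_sdiff.1 i2).2]
      intro v hv
      obtain ⟨j, hj⟩ := h.2.2 v (mem_sdiff.1 hv).1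
      exact ⟨j, by rw [(key j v hv).1, hj]⟩
  refine ⟨π₁, π₂, h1, h2, ?_⟩
  funext v
  by_cases hvu : v = x
  · rw [hvu, glue_u, hpx]
  · by_cases hvC : v ∈ C
    · rw [glue_C hvC hvu, hπ₁]
      simp only
      rw [if_pos ⟨hvC, hvu⟩]
    · rw [glue_D hvC hxC, hπ₂]
      simp only
      rw [if_neg hvC]

section
variable {S C : Finset V} {r x : V} {π₁ π₂ : V → V}

lemma sb_glue (hr : r ∈ S) (hC : C ⊆ S.erase r) (hx : x ∈ C)
    (h1 : IsPar (⊤ : SimpleGraph V) C x π₁) (h2 : IsPar (⊤ : SimpleGraph V) (S \ C) r π₂) :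
    sb S (glue r C x π₁ π₂) x = C := by
  ext v
  rw [mem_sb, mem_C_iff hr hC hx h1 h2]

lemma glue_child (hC : C ⊆ S.erase r) (hx : x ∈ C)
    (h1 : IsPar (⊤ : SimpleGraph V) C x π₁) {z : V} (hzx : z ≠ x)
    (hz : glue r C x π₁ π₂ z = r) : z ∉ C ∧ π₂ z = r := by
  have hrC : r ∉ C := fun h => by have := hC h; simp at this
  have h3 : z ∉ C := by
    intro h
    rw [glue_C h hzx] at hz
    have := (h1.2.1 z h hzx).1
    rw [hz] at this
    exact hrC this
  refine ⟨h3, ?_⟩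
  rwa [glue_D h3 hx] at hz

lemma sb_glue' (hr : r ∈ S) (hC : C ⊆ S.erase r) (hx : x ∈ C)
    (h1 : IsPar (⊤ : SimpleGraph V) C x π₁) (h2 : IsPar (⊤ : SimpleGraph V) (S \ C) r π₂) {z : V}
    (hzr : z ≠ r) (hzx : z ≠ x) (hz : glue r C x π₁ π₂ z = r) :
    sb S (glue r C x π₁ π₂) z = sb (S \ C) π₂ z := by
  have hrx : x ≠ r := by
    rintro rfl
    have := hC hx
    simp at this
  have hg := glue_isPar hr hC hx (by rw [SimpleGraph.top_adj]; exact hrx) h1 h2
  ext v
  rw [mem_sb, mem_sb]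
  constructor
  · rintro ⟨hv, j, hj⟩
    have hvC : v ∉ C := by
      intro hvC
      obtain ⟨k, hk⟩ := h1.2.2 v hvC
      obtain ⟨i, hi⟩ := glue_reach_u (r := r) (π₂ := π₂) h1 k v hvC hk
      exact hzx (unique_top hg.root hrx hzr (glue_u _ _ _ _ _) hz hi hj).symm
    have hv' : v ∈ S \ C := mem_sdiff.2 ⟨hv, hvC⟩
    refine ⟨hv', j, ?_⟩
    rw [← glue_iter_D hx h2 hv' j]
    exact hj
  · rintro ⟨hv, j, hj⟩
    refine ⟨(mem_sdiff.1 hv).1, j, ?_⟩
    rw [glue_iter_D hx h2 hv j]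
    exact hj

end

/-- pairs of a marked branch of size `M` and a tree in which the other branches are small -/
noncomputable def Mk (S : Finset V) (r : V) (M c : ℕ) : Finset (V × (V → V)) :=
  ((S.erase r) ×ˢ (Par (⊤ : SimpleGraph V) S r)).filter (fun p => p.2 p.1 = r ∧
    (sb S p.2 p.1).card = M ∧ ∀ z ∈ S, z ≠ r → z ≠ p.1 → p.2 z = r → (sb S p.2 z).card ≤ c)

theorem card_Mk {S : Finset V} {r : V} (hr : r ∈ S) (M c : ℕ) :
    (Mk S r M c).card = ∑ C ∈ powersetCard M (S.erase r), M * (a M * nb (S \ C) r c) := by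
  set T : Finset (Σ _ : Finset V, Σ _ : V, (V → V) × (V → V)) :=
    (powersetCard M (S.erase r)).sigma (fun C =>
      C.sigma (fun u => (Par ⊤ C u) ×ˢ ((Par ⊤ (S \ C) r).filter (Small (S \ C) r c)))) with hT
  have hcard : T.card = ∑ C ∈ powersetCard M (S.erase r), M * (a M * nb (S \ C) r c) := by
    rw [hT, card_sigma]
    apply sum_congr rfl
    intro C hC
    rw [mem_powersetCard] at hC
    rw [card_sigma]
    have : ∀ u ∈ C, ((Par ⊤ C u) ×ˢ ((Par ⊤ (S \ C) r).filter (Small (S \ C) r c))).card =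
        a M * nb (S \ C) r c := by
      intro u hu
      rw [card_product, card_Par hu, hC.2]
      rfl
    rw [sum_congr rfl this, sum_const, hC.2, smul_eq_mul]
  rw [← hcard]
  symm
  have hmem : ∀ t : (Σ _ : Finset V, Σ _ : V, (V → V) × (V → V)), t ∈ T ↔
      (t.1 ⊆ S.erase r ∧ t.1.card = M) ∧ t.2.1 ∈ t.1 ∧
        IsPar ⊤ t.1 t.2.1 t.2.2.1 ∧ IsPar ⊤ (S \ t.1) r t.2.2.2 ∧
        Small (S \ t.1) r c t.2.2.2 := by
    intro t
    rw [hT, mem_sigma, mem_sigma, mem_product, mem_powersetCard, mem_filter, mem_Par,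
      mem_Par]
  apply card_bij (fun t _ => (t.2.1, glue r t.1 t.2.1 t.2.2.1 t.2.2.2))
  · rintro ⟨C, u, π₁, π₂⟩ ht
    obtain ⟨⟨hC, hM⟩, hu, h1, h2, h3⟩ := (hmem _).1 ht
    simp only at hC hM hu h1 h2 h3
    have hur : u ≠ r := by
      rintro rfl
      have := hC hu
      simp at this
    have hg := glue_isPar hr hC hu (by rw [SimpleGraph.top_adj]; exact hur) h1 h2
    simp only [Mk, mem_filter, mem_product, mem_erase]
    refine ⟨⟨⟨hur, ?_⟩, mem_Par.2 hg⟩, glue_u _ _ _ _ _, ?_, ?_⟩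
    · have := hC hu; exact (mem_erase.1 this).2
    · rw [sb_glue hr hC hu h1 h2, hM]
    · intro z hzS hzr hzu hz
      rw [sb_glue' hr hC hu h1 h2 hzr hzu hz]
      obtain ⟨h4, h5⟩ := glue_child hC hu h1 hzu hz
      exact h3 z (mem_sdiff.2 ⟨hzS, h4⟩) hzr h5
  · rintro ⟨C, u, π₁, π₂⟩ ht ⟨C', u', π₁', π₂'⟩ ht' heq
    obtain ⟨⟨hC, _⟩, hu, h1, h2, _⟩ := (hmem _).1 ht
    obtain ⟨⟨hC', _⟩, hu', h1', h2', _⟩ := (hmem _).1 ht'
    simp only at hC hu h1 h2 hC' hu' h1' h2'
    simp only [Prod.mk.injEq] at heq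
    obtain ⟨huu, heq⟩ := heq
    subst huu
    have hCC : C = C' := by
      rw [← sb_glue hr hC hu h1 h2, ← sb_glue hr hC' hu' h1' h2', heq]
    subst hCC
    have e1 : π₁ = π₁' := by
      funext v
      by_cases hv : v ∈ C ∧ v ≠ u
      · have := congrFun heq v
        rwa [glue_C hv.1 hv.2, glue_C hv.1 hv.2] at this
      · have hv' : v ∉ C ∨ v = u := by tauto
        rw [h1.1 v hv', h1'.1 v hv']
    have e2 : π₂ = π₂' := by
      funext v
      by_cases hv : v ∈ C
      · have hv' : v ∉ S \ C ∨ v = r := Or.inl (by simp [hv])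
        rw [h2.1 v hv', h2'.1 v hv']
      · have := congrFun heq v
        rwa [glue_D hv hu, glue_D hv hu] at this
    rw [e1, e2]
  · rintro ⟨x, π⟩ hp
    simp only [Mk, mem_filter, mem_product, mem_erase] at hp
    obtain ⟨⟨⟨hxr, hxS⟩, hπ⟩, hpx, hM, hsm⟩ := hp
    have h := mem_Par.1 hπ
    obtain ⟨π₁, π₂, h1, h2, h3⟩ := cut h hxS hxr hpx
    have hCS : sb S π x ⊆ S.erase r := by
      intro v hv
      rw [mem_sb] at hv
      rw [mem_erase]
      refine ⟨?_, hv.1⟩
      rintro rfl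
      obtain ⟨j, hj⟩ := hv.2
      rw [iter_fix h.root] at hj
      exact hxr hj.symm
    have hxC : x ∈ sb S π x := mem_sb.2 ⟨hxS, 0, rfl⟩
    refine ⟨⟨sb S π x, x, π₁, π₂⟩, (hmem _).2 ⟨⟨hCS, hM⟩, hxC, h1, h2, ?_⟩, ?_⟩
    · simp only
      intro z hz hzr hpz
      obtain ⟨hzS, hzC⟩ := mem_sdiff.1 hz
      have hzx : z ≠ x := by rintro rfl; exact hzC hxC
      have hzg : glue r (sb S π x) x π₁ π₂ z = r := by rw [glue_D hzC hxC, hpz]
      have h4 := sb_glue' hr hCS hxC h1 h2 hzr hzx hzg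
      rw [← h4, h3]
      apply hsm z hzS hzr hzx
      rw [← h3]; exact hzg
    · simp only
      rw [h3]

end Pool.Agent.KS6_54.RSD.Q287.RS
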